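import Pool.Agent.Helper16.Abund.Defs2

/-!
Shorter names for the data of a family of complex tori covering a Kähler manifold.
-/

open scoped Manifold ContDiff ENNReal ComplexConjugate ComplexOrder
open MeasureTheory

namespace Pool.Agent.Helper16.Abund

/-- The differential of `ψ` at `z` in the preferred charts, as a complex linear map. -/
noncomputable def dmap (n : ℕ) {X : Type*} [TopologicalSpace X] [ChartedSpace (Fin n → ℂ) X]
    (ψ : (Fin n → ℂ) → X) (z : Fin n → ℂ) : (Fin n → ℂ) →L[ℂ] (Fin n → ℂ) :=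
  mfderiv 𝓘(ℂ, Fin n → ℂ) 𝓘(ℂ, Fin n → ℂ) ψ z

/-- The differential of `ψ` at `z` applied to the tangent vector `u`. -/
noncomputable def dvec (n : ℕ) {X : Type*} [TopologicalSpace X] [ChartedSpace (Fin n → ℂ) X]
    (ψ : (Fin n → ℂ) → X) (z u : Fin n → ℂ) : Fin n → ℂ :=
  dmap n ψ z u

/-- For a family `g x` of matrices (a Hermitian metric of `X`, written in the preferred chart at each
point `x`), the imaginary part of the pull back by `ψ` of the metric, evaluated at the point `z` on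
the tangent vectors `u, v`. -/
noncomputable def metricForm (n : ℕ) {X : Type*} [TopologicalSpace X] [ChartedSpace (Fin n → ℂ) X]
    (g : X → Matrix (Fin n) (Fin n) ℂ) (ψ : (Fin n → ℂ) → X) (z u v : Fin n → ℂ) : ℝ :=
  (herm (g (ψ z)) (dvec n ψ z u) (dvec n ψ z v)).im

/-- `ψ` is a holomorphic map from the open set `V` of `ℂⁿ` to `X`. -/
def HoloOn (n : ℕ) {X : Type*} [TopologicalSpace X] [ChartedSpace (Fin n → ℂ) X]
    (ψ : (Fin n → ℂ) → X) (V : Set (Fin n → ℂ)) : Prop :=
  IsOpen V ∧ MDifferentiableOn 𝓘(ℂ, Fin n → ℂ) 𝓘(ℂ, Fin n → ℂ) ψ V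

/-- The 2-form `κ` on the open subset `V` of `ℂⁿ` is smooth. -/
def SmoothForm (n : ℕ) (κ : (Fin n → ℂ) → (Fin n → ℂ) → (Fin n → ℂ) → ℝ)
    (V : Set (Fin n → ℂ)) : Prop :=
  ∀ u v : Fin n → ℂ, ContDiffOn ℝ ∞ (fun z => κ z u v) V

/-- The 2-form `κ` on the open subset `V` of `ℂⁿ` is closed. -/
def ClosedForm (n : ℕ) (κ : (Fin n → ℂ) → (Fin n → ℂ) → (Fin n → ℂ) → ℝ)
    (V : Set (Fin n → ℂ)) : Prop :=
  ∀ z ∈ V, ∀ u v w : Fin n → ℂ, fderiv ℝ (fun z => κ z v w) z u +
    fderiv ℝ (fun z => κ z w u) z v + fderiv ℝ (fun z => κ z u v) z w = 0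

/-- `g` is a Kähler metric on the complex manifold `X` (given by its matrix in the preferred chart at
each point): it is positive definite, and for every holomorphic map `ψ` from an open subset `V` of
`ℂⁿ` to `X` the imaginary part of the pulled back metric is a smooth closed differential form. -/
def KahlerMetric (n : ℕ) (X : Type*) [TopologicalSpace X] [ChartedSpace (Fin n → ℂ) X]
    (g : X → Matrix (Fin n) (Fin n) ℂ) : Prop :=
  (∀ x, (g x).PosDef) ∧ ∀ (V : Set (Fin n → ℂ)) (ψ : (Fin n → ℂ) → X), HoloOn n ψ V →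
    SmoothForm n (metricForm n g ψ) V ∧ ClosedForm n (metricForm n g ψ) V

/-- `p` is a surjective holomorphic covering map between complex manifolds. -/
def HolCovering (n : ℕ) {X Y : Type*} [TopologicalSpace X] [ChartedSpace (Fin n → ℂ) X]
    [TopologicalSpace Y] [ChartedSpace (Fin n → ℂ) Y] (p : Y → X) : Prop :=
  Function.Surjective p ∧ IsCoveringMap p ∧
    IsLocalDiffeomorph 𝓘(ℂ, Fin n → ℂ) 𝓘(ℂ, Fin n → ℂ) ω p

/-- `Λ z`, `z ∈ D`, are `2k` vectors of `ℂᵏ`, linearly independent over the real numbers and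
depending holomorphically on `z`. -/
def LatticeFamily {b k : ℕ} (D : Set (Fin b → ℂ)) (Λ : (Fin b → ℂ) → Fin (2 * k) → Fin k → ℂ) :
    Prop :=
  DifferentiableOn ℂ Λ D ∧ ∀ z ∈ D, LinearIndependent ℝ (Λ z)

/-- `P` is invariant under the translations by integral combinations of the lattice vectors. -/
def LatticePeriodic {b k : ℕ} {D : Set (Fin b → ℂ)} {hD : IsOpen D} {X : Type*}
    (Λ : (Fin b → ℂ) → Fin (2 * k) → Fin k → ℂ) (P : tube D hD k → X) : Prop :=
  ∀ (m : Fin (2 * k) → ℤ) (y y' : tube D hD k),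
    y'.1 = shift Λ (fun l => (m l : ℝ)) y.1 → P y' = P y

/-- `X` has a surjective holomorphic covering map `P` from `D × ℂᵏ` which is invariant under the
translations by the lattices spanned by the vectors `Λ z`; that is, the family of complex tori
`ℂᵏ / Λ(z) ℤ²ᵏ`, `z ∈ D`, is a covering space of `X`. -/
def CoveredByTori {b k : ℕ} {D : Set (Fin b → ℂ)} (hD : IsOpen D)
    (Λ : (Fin b → ℂ) → Fin (2 * k) → Fin k → ℂ) (X : Type*) [TopologicalSpace X]
    [ChartedSpace (Fin (b + k) → ℂ) X] : Prop :=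
  ∃ P : tube D hD k → X, HolCovering (b + k) P ∧ LatticePeriodic Λ P

end Pool.Agent.Helper16.Abund
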