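import Pool.Agent.Helper16.Abund.Trace3

open scoped Manifold ContDiff ENNReal Topology
open MeasureTheory Metric

namespace Pool.Agent.Helper16.Abund

variable {n : ℕ} {X Y Z : Type*} [TopologicalSpace X] [ChartedSpace (Fin n → ℂ) X]
    [TopologicalSpace Y] [ChartedSpace (Fin n → ℂ) Y]
    [TopologicalSpace Z] [ChartedSpace (Fin n → ℂ) Z]

theorem IsPluriForm.pow {m : ℕ} {c : X → ℂ} (hc : IsPluriForm n X m c) (k : ℕ) :
    IsPluriForm n X (m * k) (fun x => c x ^ k) := by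
  intro V ψ hV hψ
  have := (hc V ψ hV hψ).pow k
  refine this.congr fun z _ => ?_
  simp only [Pi.pow_apply]
  rw [pow_mul, mul_pow]

theorem IsPluriForm.pullback {m : ℕ} {s : Z → ℂ} (hs : IsPluriForm n Z m s) {g : Y → Z}
    (hg : MDifferentiable 𝓘(ℂ, Fin n → ℂ) 𝓘(ℂ, Fin n → ℂ) g) :
    IsPluriForm n Y m (fun y => s (g y) * jac n g y ^ m) := by
  intro V ψ hV hψ
  have h1 : MDifferentiableOn 𝓘(ℂ, Fin n → ℂ) 𝓘(ℂ, Fin n → ℂ) (g ∘ ψ) V := by
    intro z hz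
    exact ((hg (ψ z)).comp z (hψ.mdifferentiableAt (hV.mem_nhds hz))).mdifferentiableWithinAt
  refine (hs V (g ∘ ψ) hV h1).congr fun z hz => ?_
  rw [jac_comp (hg (ψ z)) (hψ.mdifferentiableAt (hV.mem_nhds hz)), mul_pow]
  simp only [Function.comp_apply]
  ring

theorem jac_chart_symm_ne_zero [IsManifold 𝓘(ℂ, Fin n → ℂ) ω X] (x₀ : X) {z : Fin n → ℂ}
    (hz : z ∈ (chartAt (Fin n → ℂ) x₀).target) :
    jac n (chartAt (Fin n → ℂ) x₀).symm z ≠ 0 := by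
  set χ := chartAt (Fin n → ℂ) x₀ with hχ
  have hs : MDifferentiableAt 𝓘(ℂ, Fin n → ℂ) 𝓘(ℂ, Fin n → ℂ) χ.symm z :=
    (mdiff_chart_symm x₀).mdifferentiableAt (χ.open_target.mem_nhds hz)
  have h1 : MDifferentiableAt 𝓘(ℂ, Fin n → ℂ) 𝓘(ℂ, Fin n → ℂ) χ (χ.symm z) :=
    (mdiff_chart x₀).mdifferentiableAt (χ.open_source.mem_nhds (χ.map_target hz))
  have := jac_mul_eq_one h1 hs (by
    filter_upwards [χ.open_target.mem_nhds hz] with w hw
    exact χ.right_inv hw)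
  intro h0
  rw [h0, mul_zero] at this
  exact zero_ne_one this

theorem IsPluriForm.isOpen_ne_zero [IsManifold 𝓘(ℂ, Fin n → ℂ) ω X] {m : ℕ} {c : X → ℂ}
    (hc : IsPluriForm n X m c) : IsOpen {x | c x ≠ 0} := by
  rw [isOpen_iff_mem_nhds]
  intro x₀ hx₀
  set χ := chartAt (Fin n → ℂ) x₀ with hχ
  have hx₀s : x₀ ∈ χ.source := mem_chart_source _ x₀
  have hF := hc χ.target χ.symm χ.open_target (mdiff_chart_symm x₀)
  have hcont : ContinuousAt (fun z => c (χ.symm z) * jac n χ.symm z ^ m) (χ x₀) :=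
    hF.continuousOn.continuousAt (χ.open_target.mem_nhds (χ.map_source hx₀s))
  have hne : c (χ.symm (χ x₀)) * jac n χ.symm (χ x₀) ^ m ≠ 0 := by
    rw [χ.left_inv hx₀s]
    exact mul_ne_zero hx₀ (pow_ne_zero _ (jac_chart_symm_ne_zero x₀ (χ.map_source hx₀s)))
  have hev := hcont.eventually_ne hne
  have hev2 := (χ.continuousAt hx₀s).eventually hev
  filter_upwards [hev2, χ.open_source.mem_nhds hx₀s] with y hy hys
  rw [χ.left_inv hys] at hy
  exact left_ne_zero_of_mul hy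

theorem canSemiample_of_pointwise [IsManifold 𝓘(ℂ, Fin n → ℂ) ω X] [CompactSpace X]
    (h : ∀ x : X, ∃ ℓ : ℕ, 1 ≤ ℓ ∧ ∃ c : X → ℂ, IsPluriForm n X ℓ c ∧ c x ≠ 0) :
    CanSemiample n X := by
  classical
  choose ℓ hℓ c hc hcx using h
  obtain ⟨t, ht⟩ := CompactSpace.elim_nhds_subcover (fun x => {y | c x y ≠ 0})
    fun x => (hc x).isOpen_ne_zero.mem_nhds (hcx x)
  refine ⟨∏ x ∈ t, ℓ x, Finset.one_le_prod' fun x _ => hℓ x, ?_⟩
  intro y
  have hy : y ∈ ⋃ x ∈ t, {y | c x y ≠ 0} := by rw [ht]; trivial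
  obtain ⟨x, hxt, hxy⟩ : ∃ x ∈ t, c x y ≠ 0 := by simpa using hy
  refine ⟨fun y => c x y ^ (∏ x' ∈ t.erase x, ℓ x'), ?_, pow_ne_zero _ hxy⟩
  rw [← Finset.mul_prod_erase t ℓ hxt]
  exact (hc x).pow _

/-- **Main criterion, one direction.** -/
theorem exists_form_of_Lq [IsManifold 𝓘(ℂ, Fin n → ℂ) ω X] {p : Y → X} (hcov : IsCoveringMap p)
    (hloc : IsLocalDiffeomorph 𝓘(ℂ, Fin n → ℂ) 𝓘(ℂ, Fin n → ℂ) ω p) {m : ℕ} (hm : 1 ≤ m)
    {η : Y → ℂ} (hη : IsPluriForm n Y m η) {q : ℝ} (hq : 0 < q) (hLq : FibreLq n p m q η)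
    {y : Y} (hy : η y ≠ 0) :
    ∃ ℓ : ℕ, 1 ≤ ℓ ∧ ∃ c : X → ℂ, IsPluriForm n X ℓ c ∧ c (p y) ≠ 0 := by
  have hsum := summable_fibre_rpow hcov hloc hη hq hLq (p y)
  obtain ⟨k, hk, hkb⟩ := exists_powerSum (a := fun y' : p ⁻¹' {p y} => η y' / jac n p y'.1 ^ m)
    hq hsum ⟨y, rfl⟩ (⌈q⌉₊ + 1)
  have hqk : q ≤ k := by
    calc q ≤ (⌈q⌉₊ : ℝ) := Nat.le_ceil q
      _ ≤ ((⌈q⌉₊ + 1 : ℕ) : ℝ) := by push_cast; linarith
      _ ≤ k := by exact_mod_cast hk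
  refine ⟨m * k, ?_, trace n p m k η, isPluriForm_trace hcov hloc hη hq hLq hqk, ?_⟩
  · exact Nat.mul_pos hm (by omega)
  · have h1 : 0 < ‖η y / jac n p y ^ m‖ ^ k := by
      apply pow_pos
      rw [norm_pos_iff]
      exact div_ne_zero hy (pow_ne_zero _ (jac_ne_zero hloc y))
    have h2 : 0 < ‖∑' y' : p ⁻¹' {p y}, (η y' / jac n p y'.1 ^ m) ^ k‖ := by
      have h3 : ‖η y / jac n p y ^ m‖ ^ k ≤
        2 * ‖∑' y' : p ⁻¹' {p y}, (η y' / jac n p y'.1 ^ m) ^ k‖ := hkb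
      linarith
    exact norm_pos_iff.1 h2

/-- Local boundedness gives `L^q` for the identity covering. -/
theorem fibreLq_id [IsManifold 𝓘(ℂ, Fin n → ℂ) ω X] {m : ℕ} {c : X → ℂ}
    (hc : IsPluriForm n X m c) : FibreLq n (id : X → X) m 1 c := by
  intro x₀
  set χ := chartAt (Fin n → ℂ) x₀ with hχ
  have hx₀s : x₀ ∈ χ.source := mem_chart_source _ x₀
  have hF := hc χ.target χ.symm χ.open_target (mdiff_chart_symm x₀)
  have hcont : ContinuousAt (fun z => ‖c (χ.symm z) * jac n χ.symm z ^ m‖) (χ x₀) :=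
    (hF.continuousOn.continuousAt (χ.open_target.mem_nhds (χ.map_source hx₀s))).norm
  have hev := hcont.eventually (gt_mem_nhds (lt_add_one _))
  obtain ⟨r, hr, hsub⟩ := Metric.mem_nhds_iff.1
    (Filter.inter_mem (χ.open_target.mem_nhds (χ.map_source hx₀s)) hev)
  refine ⟨r, hr, fun z hz => (hsub hz).1, ?_⟩
  set C := ‖c (χ.symm (χ x₀)) * jac n χ.symm (χ x₀) ^ m‖ + 1 with hC
  calc ∫⁻ z in ball (χ x₀) r, ∑' y : id ⁻¹' {χ.symm z},
        ENNReal.ofReal (‖c y * (jac n χ.symm z / jac n id y.1) ^ m‖ ^ (1 : ℝ))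
      ≤ ∫⁻ z in ball (χ x₀) r, ENNReal.ofReal C := by
        apply setLIntegral_mono measurable_const
        intro z hz
        have h1 : ∑' y : id ⁻¹' {χ.symm z},
            ENNReal.ofReal (‖c y * (jac n χ.symm z / jac n id y.1) ^ m‖ ^ (1 : ℝ)) =
            ENNReal.ofReal (‖c (χ.symm z) * (jac n χ.symm z / jac n id (χ.symm z)) ^ m‖ ^ (1 : ℝ)) := by
          have hu : ∀ y : (id ⁻¹' {χ.symm z} : Set X), y ≠ ⟨χ.symm z, rfl⟩ →
              ENNReal.ofReal (‖c y * (jac n χ.symm z / jac n id y.1) ^ m‖ ^ (1 : ℝ)) = 0 := by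
            intro y hy
            have hy2 : y.1 = χ.symm z := y.2
            exact absurd (Subtype.ext hy2) hy
          exact tsum_eq_single (⟨χ.symm z, rfl⟩ : (id ⁻¹' {χ.symm z} : Set X)) hu
        rw [h1, jac_id, div_one, Real.rpow_one]
        exact ENNReal.ofReal_le_ofReal (hsub hz).2.le
    _ < ⊤ := by
        rw [setLIntegral_const]
        exact ENNReal.mul_lt_top ENNReal.ofReal_lt_top measure_ball_lt_top

end Pool.Agent.Helper16.Abund
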