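import Pool.Agent.Helper16.Abund.Inputs2
import Pool.Agent.Helper16.Abund.Semi

open scoped Manifold ContDiff ENNReal Topology ComplexConjugate ComplexOrder
open MeasureTheory Metric
open Pool.Agent.Helper10.Abund (jac_shift)

namespace Pool.Agent.Helper16.Abund

variable {b k : ℕ}

theorem comb_add (Λ : (Fin b → ℂ) → Fin (2 * k) → Fin k → ℂ) (z : Fin b → ℂ)
    (θ θ' : Fin (2 * k) → ℝ) : comb Λ z (θ + θ') = comb Λ z θ + comb Λ z θ' := by
  unfold comb
  rw [← Finset.sum_add_distrib]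
  refine Finset.sum_congr rfl fun l _ => ?_
  rw [Pi.add_apply, Complex.ofReal_add, add_smul]

theorem comb_zero (Λ : (Fin b → ℂ) → Fin (2 * k) → Fin k → ℂ) (z : Fin b → ℂ) :
    comb Λ z 0 = 0 := by
  unfold comb
  simp

theorem comb_eq_smul (Λ : (Fin b → ℂ) → Fin (2 * k) → Fin k → ℂ) (z : Fin b → ℂ)
    (θ : Fin (2 * k) → ℝ) : comb Λ z θ = ∑ l, θ l • Λ z l := by
  unfold comb
  refine Finset.sum_congr rfl fun l _ => ?_
  ext j
  simp

theorem base_append (z : Fin b → ℂ) (w : Fin k → ℂ) : base (Fin.append z w) = z := by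
  funext i
  simp [base]

theorem fib_append (z : Fin b → ℂ) (w : Fin k → ℂ) : fib (Fin.append z w) = w := by
  funext i
  simp [fib]

theorem append_base_fib (v : Fin (b + k) → ℂ) : Fin.append (base v) (fib v) = v := by
  funext i
  refine Fin.addCases (fun i => ?_) (fun i => ?_) i
  · rw [Fin.append_left]; rfl
  · rw [Fin.append_right]; rfl

theorem base_shift (Λ : (Fin b → ℂ) → Fin (2 * k) → Fin k → ℂ) (θ : Fin (2 * k) → ℝ)
    (v : Fin (b + k) → ℂ) : base (shift Λ θ v) = base v := base_append _ _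

theorem fib_shift (Λ : (Fin b → ℂ) → Fin (2 * k) → Fin k → ℂ) (θ : Fin (2 * k) → ℝ)
    (v : Fin (b + k) → ℂ) : fib (shift Λ θ v) = fib v + comb Λ (base v) θ := fib_append _ _

theorem shift_zero (Λ : (Fin b → ℂ) → Fin (2 * k) → Fin k → ℂ) (v : Fin (b + k) → ℂ) :
    shift Λ 0 v = v := by
  unfold shift
  rw [comb_zero, add_zero, append_base_fib]

theorem shift_add (Λ : (Fin b → ℂ) → Fin (2 * k) → Fin k → ℂ) (θ θ' : Fin (2 * k) → ℝ)
    (v : Fin (b + k) → ℂ) : shift Λ (θ + θ') v = shift Λ θ (shift Λ θ' v) := by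
  have h : shift Λ θ (shift Λ θ' v) = Fin.append (base (shift Λ θ' v))
      (fib (shift Λ θ' v) + comb Λ (base (shift Λ θ' v)) θ) := rfl
  rw [h, base_shift, fib_shift]
  unfold shift
  rw [comb_add, add_assoc, add_comm (comb Λ (base v) θ')]

theorem mem_tube {D : Set (Fin b → ℂ)} {hD : IsOpen D} {v : Fin (b + k) → ℂ} :
    v ∈ tube D hD k ↔ base v ∈ D := Iff.rfl

/-- The lattice translations acting on the tube. -/
noncomputable def act {D : Set (Fin b → ℂ)} (hD : IsOpen D)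
    (Λ : (Fin b → ℂ) → Fin (2 * k) → Fin k → ℂ) (m : Fin (2 * k) → ℤ) (y : tube D hD k) :
    tube D hD k :=
  ⟨shift Λ (fun l => (m l : ℝ)) y.1, by
    rw [mem_tube, base_shift]
    exact y.2⟩

theorem act_zero {D : Set (Fin b → ℂ)} (hD : IsOpen D)
    (Λ : (Fin b → ℂ) → Fin (2 * k) → Fin k → ℂ) (y : tube D hD k) : act hD Λ 0 y = y := by
  apply Subtype.ext
  change shift Λ (fun l => ((0 : Fin (2 * k) → ℤ) l : ℝ)) y.1 = y.1
  have : (fun l => ((0 : Fin (2 * k) → ℤ) l : ℝ)) = 0 := by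
    funext l
    simp
  rw [this, shift_zero]

theorem act_add {D : Set (Fin b → ℂ)} (hD : IsOpen D)
    (Λ : (Fin b → ℂ) → Fin (2 * k) → Fin k → ℂ) (m m' : Fin (2 * k) → ℤ) (y : tube D hD k) :
    act hD Λ (m + m') y = act hD Λ m (act hD Λ m' y) := by
  apply Subtype.ext
  change shift Λ (fun l => (((m + m') l : ℤ) : ℝ)) y.1 =
    shift Λ (fun l => (m l : ℝ)) (shift Λ (fun l => (m' l : ℝ)) y.1)
  rw [← shift_add]
  congr 1
  funext l
  simp

theorem continuous_act {D : Set (Fin b → ℂ)} (hD : IsOpen D)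
    {Λ : (Fin b → ℂ) → Fin (2 * k) → Fin k → ℂ} (hΛ : DifferentiableOn ℂ Λ D)
    (m : Fin (2 * k) → ℤ) : Continuous (act (k := k) hD Λ m) := by
  apply Continuous.subtype_mk
  rw [continuous_iff_continuousAt]
  intro y
  exact (jac_shift hD hΛ (fun l => (m l : ℝ)) y.2).1.continuousAt.comp
    continuousAt_subtype_val

/-- The basis of `ℂᵏ` over `ℝ` given by the lattice vectors at `z`. -/
noncomputable def latBasis {Λ : (Fin b → ℂ) → Fin (2 * k) → Fin k → ℂ} {z : Fin b → ℂ}
    (h : LinearIndependent ℝ (Λ z)) : Module.Basis (Fin (2 * k)) ℝ (Fin k → ℂ) :=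
  basisOfLinearIndependentOfCardEqFinrank' (Λ z) h (by
    rw [Fintype.card_fin, Module.finrank_pi_fintype]
    simp [mul_comm])

theorem latBasis_apply {Λ : (Fin b → ℂ) → Fin (2 * k) → Fin k → ℂ} {z : Fin b → ℂ}
    (h : LinearIndependent ℝ (Λ z)) (l : Fin (2 * k)) : latBasis h l = Λ z l := by
  simp [latBasis]

theorem comb_repr {Λ : (Fin b → ℂ) → Fin (2 * k) → Fin k → ℂ} {z : Fin b → ℂ}
    (h : LinearIndependent ℝ (Λ z)) (w : Fin k → ℂ) :
    comb Λ z (fun l => (latBasis h).repr w l) = w := by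
  rw [comb_eq_smul]
  conv_rhs => rw [← (latBasis h).sum_repr w]
  simp only [latBasis_apply]

theorem comb_injective {Λ : (Fin b → ℂ) → Fin (2 * k) → Fin k → ℂ} {z : Fin b → ℂ}
    (h : LinearIndependent ℝ (Λ z)) : Function.Injective (comb Λ z) := by
  intro θ θ' hh
  have h1 : comb Λ z (θ - θ') = 0 := by
    have := comb_add Λ z (θ - θ') θ'
    rw [sub_add_cancel, hh] at this
    simpa using this
  rw [comb_eq_smul] at h1
  have h2 := Fintype.linearIndependent_iff.1 h _ h1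
  funext l
  have := h2 l
  rw [Pi.sub_apply, sub_eq_zero] at this
  exact this

theorem existsUnique_act {D : Set (Fin b → ℂ)} (hD : IsOpen D)
    {Λ : (Fin b → ℂ) → Fin (2 * k) → Fin k → ℂ} (hind : ∀ z ∈ D, LinearIndependent ℝ (Λ z))
    (y : tube D hD k) : ∃! m : Fin (2 * k) → ℤ, act hD Λ m y ∈ Subtype.val ⁻¹' (fund D Λ) := by
  have hz : base y.1 ∈ D := y.2
  set θ : Fin (2 * k) → ℝ := fun l => (latBasis (hind _ hz)).repr (fib y.1) l with hθ
  have hfib : comb Λ (base y.1) θ = fib y.1 := comb_repr (hind _ hz) _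
  have key : ∀ m : Fin (2 * k) → ℤ, act hD Λ m y ∈ Subtype.val ⁻¹' (fund D Λ) ↔
      ∀ l, 0 ≤ θ l + m l ∧ θ l + m l < 1 := by
    intro m
    have e1 : (act hD Λ m y).1 = shift Λ (fun l => (m l : ℝ)) y.1 := rfl
    rw [Set.mem_preimage, e1]
    constructor
    · rintro ⟨-, θ', hθ', hf⟩
      rw [base_shift, fib_shift, ← hfib, ← comb_add] at hf
      have := comb_injective (hind _ hz) hf
      intro l
      have h3 := congrFun this l
      rw [Pi.add_apply] at h3
      rw [h3]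
      exact hθ' l
    · intro h
      refine ⟨by rw [base_shift]; exact hz, fun l => θ l + m l, h, ?_⟩
      rw [base_shift, fib_shift, ← hfib, ← comb_add]
      rfl
  refine ⟨fun l => -⌊θ l⌋, (key _).2 ?_, ?_⟩
  · intro l
    push_cast
    constructor
    · linarith [Int.floor_le (θ l)]
    · linarith [Int.lt_floor_add_one (θ l)]
  · intro m hm
    funext l
    obtain ⟨h1, h2⟩ := (key m).1 hm l
    have : ⌊θ l⌋ = -m l := by
      rw [Int.floor_eq_iff]
      push_cast
      constructor <;> linarith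
    rw [this, neg_neg]

end Pool.Agent.Helper16.Abund
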