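import Pool.Agent.Helper16.Abund.Defs

/-!
Kähler metrics on complex manifolds modelled on `Fin n → ℂ`, and families of lattices over a domain.
-/

open scoped Manifold ContDiff ENNReal ComplexConjugate ComplexOrder
open MeasureTheory

namespace Pool.Agent.Helper16.Abund

/-- The Hermitian pairing `∑ A i j u_i conj(v_j)`. -/
noncomputable def herm {k : ℕ} (A : Matrix (Fin k) (Fin k) ℂ) (u v : Fin k → ℂ) : ℂ :=
  ∑ i, ∑ j, A i j * u i * conj (v j)

/-- For a family `g x` of matrices (a Hermitian metric of `X`, written in the preferred chart at each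
point `x`), the imaginary part of the pull back by `ψ` of the metric, evaluated at the point `z` on
the tangent vectors `u, v`. -/
noncomputable def kahForm (n : ℕ) {X : Type*} [TopologicalSpace X] [ChartedSpace (Fin n → ℂ) X]
    (g : X → Matrix (Fin n) (Fin n) ℂ) (ψ : (Fin n → ℂ) → X) (z u v : Fin n → ℂ) : ℝ :=
  (herm (g (ψ z)) (mfderiv 𝓘(ℂ, Fin n → ℂ) 𝓘(ℂ, Fin n → ℂ) ψ z u : Fin n → ℂ)
    (mfderiv 𝓘(ℂ, Fin n → ℂ) 𝓘(ℂ, Fin n → ℂ) ψ z v : Fin n → ℂ)).im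

/-- `g` is a Kähler metric on the complex manifold `X` (given by its matrix in the preferred chart at
each point): it is positive definite, and for every holomorphic map `ψ` from an open subset `V` of
`ℂⁿ` to `X` the imaginary part of the pulled back metric is a smooth closed differential form. -/
structure IsKahler (n : ℕ) (X : Type*) [TopologicalSpace X] [ChartedSpace (Fin n → ℂ) X]
    (g : X → Matrix (Fin n) (Fin n) ℂ) : Prop where
  posDef : ∀ x, (g x).PosDef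
  smooth : ∀ (V : Set (Fin n → ℂ)) (ψ : (Fin n → ℂ) → X), IsOpen V →
    MDifferentiableOn 𝓘(ℂ, Fin n → ℂ) 𝓘(ℂ, Fin n → ℂ) ψ V → ∀ u v : Fin n → ℂ,
    ContDiffOn ℝ ∞ (fun z => kahForm n g ψ z u v) V
  closed : ∀ (V : Set (Fin n → ℂ)) (ψ : (Fin n → ℂ) → X), IsOpen V →
    MDifferentiableOn 𝓘(ℂ, Fin n → ℂ) 𝓘(ℂ, Fin n → ℂ) ψ V → ∀ z ∈ V, ∀ u v w : Fin n → ℂ,
    fderiv ℝ (fun z => kahForm n g ψ z v w) z u + fderiv ℝ (fun z => kahForm n g ψ z w u) z v +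
      fderiv ℝ (fun z => kahForm n g ψ z u v) z w = 0

/-- The first `b` coordinates. -/
def base {b k : ℕ} (v : Fin (b + k) → ℂ) : Fin b → ℂ := fun i => v (Fin.castAdd k i)

/-- The last `k` coordinates. -/
def fib {b k : ℕ} (v : Fin (b + k) → ℂ) : Fin k → ℂ := fun j => v (Fin.natAdd b j)

theorem continuous_base {b k : ℕ} : Continuous (base : (Fin (b + k) → ℂ) → (Fin b → ℂ)) :=
  continuous_pi fun i => continuous_apply (Fin.castAdd k i)

/-- The open subset `D × ℂᵏ` of `ℂᵇ⁺ᵏ`. -/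
def tube {b : ℕ} (D : Set (Fin b → ℂ)) (hD : IsOpen D) (k : ℕ) :
    TopologicalSpace.Opens (Fin (b + k) → ℂ) :=
  ⟨base ⁻¹' D, hD.preimage continuous_base⟩

/-- The real linear combination `∑ θ_l Λ_l(z)` of the lattice basis `Λ(z)`. -/
noncomputable def comb {b k : ℕ} (Λ : (Fin b → ℂ) → Fin (2 * k) → Fin k → ℂ) (z : Fin b → ℂ)
    (θ : Fin (2 * k) → ℝ) : Fin k → ℂ :=
  ∑ l, (θ l : ℂ) • Λ z l

/-- The translation `(z, w) ↦ (z, w + ∑ θ_l Λ_l(z))`. -/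
noncomputable def shift {b k : ℕ} (Λ : (Fin b → ℂ) → Fin (2 * k) → Fin k → ℂ)
    (θ : Fin (2 * k) → ℝ) (v : Fin (b + k) → ℂ) : Fin (b + k) → ℂ :=
  Fin.append (base v) (fib v + comb Λ (base v) θ)

/-- Every point of the open set `D ⊆ ℂᵇ` has a holomorphic function `s` on `D`, nonzero at that
point, with `∫_D |s|^{2/m}` finite for some `m ≥ 1`. All domains of finite volume are examples. -/
def FiniteMassDomain {b : ℕ} (D : Set (Fin b → ℂ)) : Prop :=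
  ∀ z ∈ D, ∃ m : ℕ, 1 ≤ m ∧ ∃ s : (Fin b → ℂ) → ℂ, DifferentiableOn ℂ s D ∧ s z ≠ 0 ∧
    ∫⁻ w in D, ENNReal.ofReal (‖s w‖ ^ (2 / (m : ℝ))) < ⊤

/-- `FibreLq` with the sum over the fibre restricted to the points in `F`. -/
def FibreLqOn (n : ℕ) {X Y : Type*} [TopologicalSpace X] [ChartedSpace (Fin n → ℂ) X]
    [TopologicalSpace Y] [ChartedSpace (Fin n → ℂ) Y] (p : Y → X) (m : ℕ) (q : ℝ)
    (η : Y → ℂ) (F : Set Y) : Prop :=
  ∀ x₀ : X, ∃ r : ℝ, 0 < r ∧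
    Metric.ball (chartAt (Fin n → ℂ) x₀ x₀) r ⊆ (chartAt (Fin n → ℂ) x₀).target ∧
    ∫⁻ z in Metric.ball (chartAt (Fin n → ℂ) x₀ x₀) r,
      ∑' y : p ⁻¹' {(chartAt (Fin n → ℂ) x₀).symm z}, F.indicator (fun y =>
        ENNReal.ofReal (‖η y * (jac n (chartAt (Fin n → ℂ) x₀).symm z / jac n p y) ^ m‖ ^ q)) y.1
      < ⊤

/-- The fundamental set `{(z, ∑ θ_l Λ_l(z)) : z ∈ D, θ ∈ [0,1)^{2k}}`. -/
def fund {b k : ℕ} (D : Set (Fin b → ℂ)) (Λ : (Fin b → ℂ) → Fin (2 * k) → Fin k → ℂ) :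
    Set (Fin (b + k) → ℂ) :=
  {v | base v ∈ D ∧ ∃ θ : Fin (2 * k) → ℝ, (∀ l, 0 ≤ θ l ∧ θ l < 1) ∧ fib v = comb Λ (base v) θ}

end Pool.Agent.Helper16.Abund
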