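import Pool.Agent.Helper16.Abund.Torus2

open scoped Manifold ContDiff ENNReal Topology ComplexConjugate ComplexOrder
open MeasureTheory Metric
open Pool.Agent.Helper10.Abund (jac_shift jac_open_comp isPluriForm_restrict)
open Pool.Agent.Helper24.Abund (fund_mass)
open Pool.Agent.Helper88.Abund (exists_form_of_transversal)
open Pool.Agent.Helper10.Abund (fibreLqOn_of_mass)

namespace Pool.Agent.Helper16.Abund

variable {b k : ℕ}

theorem differentiable_base : Differentiable ℂ (base : (Fin (b + k) → ℂ) → (Fin b → ℂ)) := by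
  unfold base
  fun_prop

/-- The main theorem of stage 2. -/
theorem canSemiample_of_torus_family {D : Set (Fin b → ℂ)} (hD : IsOpen D) (hDc : IsConnected D)
    (hDm : FiniteMassDomain D) {Λ : (Fin b → ℂ) → Fin (2 * k) → Fin k → ℂ}
    (hΛ : DifferentiableOn ℂ Λ D) (hind : ∀ z ∈ D, LinearIndependent ℝ (Λ z))
    {X : Type*} [TopologicalSpace X] [CompactSpace X]
    [ChartedSpace (Fin (b + k) → ℂ) X] [IsManifold 𝓘(ℂ, Fin (b + k) → ℂ) ω X]
    (hK : ∃ g, IsKahler (b + k) X g) (P : tube D hD k → X) (hsurj : Function.Surjective P)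
    (hcov : IsCoveringMap P)
    (hloc : IsLocalDiffeomorph 𝓘(ℂ, Fin (b + k) → ℂ) 𝓘(ℂ, Fin (b + k) → ℂ) ω P)
    (hper : ∀ (m : Fin (2 * k) → ℤ) (y y' : tube D hD k),
      y'.1 = shift Λ (fun l => (m l : ℝ)) y.1 → P y' = P y) :
    CanSemiample (b + k) X := by
  classical
  obtain ⟨g, hg⟩ := hK
  obtain ⟨z₁, hz₁⟩ := hDc.nonempty
  have y₁ : tube D hD k := ⟨Fin.append z₁ 0, by
    change base (Fin.append z₁ 0) ∈ D
    rw [base_append]
    exact hz₁⟩
  let ψ : (Fin (b + k) → ℂ) → X := fun v => if h : v ∈ tube D hD k then P ⟨v, h⟩ else P y₁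
  have hψP : ∀ y : tube D hD k, ψ y.1 = P y := fun y => dif_pos y.2
  have hPd : MDifferentiable 𝓘(ℂ, Fin (b + k) → ℂ) 𝓘(ℂ, Fin (b + k) → ℂ) P :=
    hloc.mdifferentiable (by simp)
  obtain ⟨hψ, hψj⟩ := jac_open_comp (tube D hD k) hPd hψP
  have hj : ∀ v ∈ tube D hD k, jac (b + k) ψ v ≠ 0 := by
    intro v hv
    rw [hψj ⟨v, hv⟩]
    exact jac_ne_zero hloc _
  have hperψ : ∀ (m : Fin (2 * k) → ℤ), ∀ v ∈ tube D hD k,
      ψ (shift Λ (fun l => (m l : ℝ)) v) = ψ v := by
    intro m v hv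
    have h2 := (jac_shift hD hΛ (fun l => (m l : ℝ)) hv).2.1
    rw [hψP ⟨_, h2⟩, hψP ⟨v, hv⟩]
    exact hper m ⟨v, hv⟩ ⟨_, h2⟩ rfl
  have hbd := fun z (hz : z ∈ D) => det_bound hD hDc.isPreconnected hΛ hind hg hψ hj hperψ hz₁ hz
  set a : (Fin b → ℂ) → ℂ := fun z => LinearMap.det (clin (latMap (hind z₁ hz₁) z)) with ha
  have had : DifferentiableOn ℂ a D := differentiableOn_det_clin hΛ _
  have ha0 : ∀ z ∈ D, a z ≠ 0 := fun z hz => (hbd z hz).1
  obtain ⟨hFm, hFint⟩ := fund_mass (k := k) hD hΛ.continuousOn hind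
  apply canSemiample_of_pointwise
  intro x
  obtain ⟨y, rfl⟩ := hsurj x
  obtain ⟨m, hm, s, hs, hs0, hsint⟩ := hDm (base y.1) y.2
  have hm0 : (0 : ℝ) < m := by exact_mod_cast hm
  -- the form
  let f : (Fin (b + k) → ℂ) → ℂ := fun v => s (base v) * (a (base v))⁻¹ ^ m
  have hmaps : Set.MapsTo (base : (Fin (b + k) → ℂ) → (Fin b → ℂ)) (tube D hD k) D :=
    fun v hv => hv
  have hf : DifferentiableOn ℂ f (tube D hD k) := by
    apply DifferentiableOn.mul
    · exact hs.comp differentiable_base.differentiableOn hmaps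
    · apply DifferentiableOn.pow
      exact (had.inv ha0).comp differentiable_base.differentiableOn hmaps
  have hη : IsPluriForm (b + k) (tube D hD k) m (fun y : tube D hD k => f y.1) :=
    isPluriForm_restrict _ hf
  -- its mass over the fundamental set
  have hFV : fund D Λ ⊆ (tube D hD k : Set (Fin (b + k) → ℂ)) := fun v hv => hv.1
  have hmass : ∫⁻ v in fund D Λ, ENNReal.ofReal (‖f v‖ ^ (2 / (m : ℝ))) < ⊤ := by
    let G : (Fin b → ℂ) → ℝ≥0∞ := D.indicator fun z =>
      ENNReal.ofReal (‖s z * (a z)⁻¹ ^ m‖ ^ (2 / (m : ℝ)))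
    have hGm : Measurable G := by
      have hc : ContinuousOn (fun z => ENNReal.ofReal (‖s z * (a z)⁻¹ ^ m‖ ^ (2 / (m : ℝ)))) D := by
        apply ENNReal.continuous_ofReal.comp_continuousOn
        apply ContinuousOn.rpow_const
        · exact (hs.continuousOn.mul (((had.continuousOn).inv₀ ha0).pow m)).norm
        · intro z _
          exact Or.inr (by positivity)
      exact hc.measurable_piecewise continuousOn_const hD.measurableSet
    have h1 : ∫⁻ v in fund D Λ, ENNReal.ofReal (‖f v‖ ^ (2 / (m : ℝ))) =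
        ∫⁻ v in fund D Λ, G (base v) := by
      apply setLIntegral_congr_fun hFm
      intro v hv
      have hvD : base v ∈ D := hv.1
      change _ = G (base v)
      rw [show G (base v) = ENNReal.ofReal (‖s (base v) * (a (base v))⁻¹ ^ m‖ ^ (2 / (m : ℝ)))
        from Set.indicator_of_mem hvD _]
    rw [h1, hFint G hGm]
    set v₁ := volume ((fun θ : Fin (2 * k) → ℝ => comb Λ z₁ θ) ''
      (Set.pi Set.univ fun _ => Set.Ico (0 : ℝ) 1)) with hv₁
    have hv₁t : v₁ < ⊤ := volume_cube_lt_top z₁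
    calc ∫⁻ z in D, G z * volume ((fun θ : Fin (2 * k) → ℝ => comb Λ z θ) ''
          (Set.pi Set.univ fun _ => Set.Ico (0 : ℝ) 1))
        ≤ ∫⁻ z in D, ENNReal.ofReal (‖s z‖ ^ (2 / (m : ℝ))) * v₁ := by
          apply setLIntegral_mono_ae'
          · exact hD.measurableSet
          · filter_upwards with z hz
            have hG : G z = ENNReal.ofReal (‖s z * (a z)⁻¹ ^ m‖ ^ (2 / (m : ℝ))) :=
              Set.indicator_of_mem hz _
            have hvol := volume_cube_le (hind z₁ hz₁) z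
              (Set.pi Set.univ fun _ => Set.Ico (0 : ℝ) 1) (hbd z hz).2
            have haz : 0 < ‖a z‖ := norm_pos_iff.2 (ha0 z hz)
            have e1 : ‖s z * (a z)⁻¹ ^ m‖ ^ (2 / (m : ℝ)) =
                ‖s z‖ ^ (2 / (m : ℝ)) * (‖a z‖ ^ 2)⁻¹ := by
              rw [norm_mul, Real.mul_rpow (norm_nonneg _) (norm_nonneg _), norm_pow, norm_inv,
                ← Real.rpow_natCast, ← Real.rpow_mul (by positivity)]
              congr 1
              rw [mul_div_cancel₀ _ hm0.ne', Real.inv_rpow haz.le]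
              norm_num
            rw [hG, e1]
            calc ENNReal.ofReal (‖s z‖ ^ (2 / (m : ℝ)) * (‖a z‖ ^ 2)⁻¹) *
                  volume ((fun θ : Fin (2 * k) → ℝ => comb Λ z θ) ''
                    (Set.pi Set.univ fun _ => Set.Ico (0 : ℝ) 1))
                ≤ ENNReal.ofReal (‖s z‖ ^ (2 / (m : ℝ)) * (‖a z‖ ^ 2)⁻¹) *
                  (ENNReal.ofReal (‖a z‖ ^ 2) * v₁) := by gcongr
              _ = ENNReal.ofReal (‖s z‖ ^ (2 / (m : ℝ))) * v₁ := by
                  rw [← mul_assoc, ← ENNReal.ofReal_mul (by positivity)]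
                  congr 2
                  field_simp
      _ = (∫⁻ z in D, ENNReal.ofReal (‖s z‖ ^ (2 / (m : ℝ)))) * v₁ := by
          rw [lintegral_mul_const']
          exact hv₁t.ne
      _ < ⊤ := ENNReal.mul_lt_top hsint hv₁t
  have hLq := fibreLqOn_of_mass (tube D hD k) hcov hloc hm hf hFm hFV hmass
  -- invariance
  have hTp : ∀ (h : Fin (2 * k) → ℤ) (y : tube D hD k), P (act hD Λ h y) = P y :=
    fun h y => hper h y _ rfl
  have hinv : ∀ (h : Fin (2 * k) → ℤ) (y : tube D hD k),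
      f (act hD Λ h y).1 / jac (b + k) P (act hD Λ h y) ^ m = f y.1 / jac (b + k) P y ^ m := by
    intro h y
    have e1 : f (act hD Λ h y).1 = f y.1 := by
      have hb : base (act hD Λ h y).1 = base y.1 := base_shift _ _ _
      simp only [f, hb]
    have e2 : jac (b + k) P (act hD Λ h y) = jac (b + k) P y := by
      obtain ⟨h1, h2, h3⟩ := jac_shift hD hΛ (fun l => (h l : ℝ)) y.2
      rw [← hψj, ← hψj]
      change jac (b + k) ψ (shift Λ (fun l => (h l : ℝ)) y.1) = _
      have hev : ψ ∘ shift Λ (fun l => (h l : ℝ)) =ᶠ[𝓝 y.1] ψ := by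
        filter_upwards [(tube D hD k).isOpen.mem_nhds y.2] with w hw
        exact hperψ h w hw
      rw [← jac_congr hev, jac_comp (hψ.mdifferentiableAt ((tube D hD k).isOpen.mem_nhds h2))
        h1.mdifferentiableAt, h3, mul_one]
    rw [e1, e2]
  have hy0 : f y.1 ≠ 0 := mul_ne_zero hs0 (pow_ne_zero _ (inv_ne_zero (ha0 _ y.2)))
  exact exists_form_of_transversal hcov hloc hm hη (act hD Λ) (act_zero hD Λ) (act_add hD Λ)
    (continuous_act hD hΛ) hTp hinv (existsUnique_act hD hind) (by positivity) hLq hy0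

end Pool.Agent.Helper16.Abund
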