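import Pool.Agent.Helper16.Abund.Defs

open scoped Manifold ContDiff ENNReal Topology
open MeasureTheory

namespace Pool.Agent.Helper16.Abund

variable {n : ℕ} {X Y Z : Type*} [TopologicalSpace X] [ChartedSpace (Fin n → ℂ) X]
    [TopologicalSpace Y] [ChartedSpace (Fin n → ℂ) Y]
    [TopologicalSpace Z] [ChartedSpace (Fin n → ℂ) Z]

theorem jac_comp {g : Y → Z} {f : X → Y} {x : X}
    (hg : MDifferentiableAt 𝓘(ℂ, Fin n → ℂ) 𝓘(ℂ, Fin n → ℂ) g (f x))
    (hf : MDifferentiableAt 𝓘(ℂ, Fin n → ℂ) 𝓘(ℂ, Fin n → ℂ) f x) :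
    jac n (g ∘ f) x = jac n g (f x) * jac n f x := by
  unfold jac
  rw [mfderiv_comp x hg hf]
  exact LinearMap.det_comp _ _

theorem jac_congr {f g : X → Y} {x : X} (h : f =ᶠ[𝓝 x] g) : jac n f x = jac n g x := by
  have e : mfderiv 𝓘(ℂ, Fin n → ℂ) 𝓘(ℂ, Fin n → ℂ) f x =
      mfderiv 𝓘(ℂ, Fin n → ℂ) 𝓘(ℂ, Fin n → ℂ) g x := h.mfderiv_eq
  have hx : f x = g x := h.eq_of_nhds
  unfold jac
  rw [e]

theorem jac_id (x : X) : jac n (id : X → X) x = 1 := by
  unfold jac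
  rw [mfderiv_id]
  exact LinearMap.det_id

/-- Euclidean: the jacobian is the determinant of the Fréchet derivative. -/
theorem jac_eq_fderiv (f : (Fin n → ℂ) → (Fin n → ℂ)) (x : Fin n → ℂ) :
    jac n f x = (fderiv ℂ f x).det := by
  unfold jac
  rw [mfderiv_eq_fderiv]
  rfl

/-- If `g ∘ f` is the identity near `x`, the jacobians are inverse to each other. -/
theorem jac_mul_eq_one {g : Y → X} {f : X → Y} {x : X}
    (hg : MDifferentiableAt 𝓘(ℂ, Fin n → ℂ) 𝓘(ℂ, Fin n → ℂ) g (f x))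
    (hf : MDifferentiableAt 𝓘(ℂ, Fin n → ℂ) 𝓘(ℂ, Fin n → ℂ) f x)
    (h : g ∘ f =ᶠ[𝓝 x] id) : jac n g (f x) * jac n f x = 1 := by
  rw [← jac_comp hg hf, jac_congr h, jac_id]

/-- Local sections of a holomorphic covering. -/
theorem exists_sections {p : Y → X} (hcov : IsCoveringMap p)
    (hloc : IsLocalDiffeomorph 𝓘(ℂ, Fin n → ℂ) 𝓘(ℂ, Fin n → ℂ) ω p) (x₀ : X) :
    ∃ U : Set X, IsOpen U ∧ x₀ ∈ U ∧ ∃ σ : (p ⁻¹' {x₀}) → X → Y,
      (∀ i, MDifferentiableOn 𝓘(ℂ, Fin n → ℂ) 𝓘(ℂ, Fin n → ℂ) (σ i) U) ∧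
      (∀ i, ∀ x ∈ U, p (σ i x) = x) ∧ (∀ y, p y ∈ U → ∃! i, σ i (p y) = y) ∧
      (∀ i, σ i x₀ = i) := by
  classical
  obtain ⟨hdisc, U, hxU, hU, hfU, H, hH⟩ := hcov x₀
  -- relabel so that the sheet through the point `i` has the label `i`
  let lab : (p ⁻¹' {x₀}) → (p ⁻¹' {x₀}) := fun i =>
    (H ⟨i.1, by rw [Set.mem_preimage, show p i.1 = x₀ from i.2]; exact hxU⟩).2
  have hlab : Function.Bijective lab := by
    constructor
    · intro i j hij
      have e1 : (H ⟨i.1, by rw [Set.mem_preimage, show p i.1 = x₀ from i.2]; exact hxU⟩) =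
          (H ⟨j.1, by rw [Set.mem_preimage, show p j.1 = x₀ from j.2]; exact hxU⟩) := by
        apply Prod.ext
        · apply Subtype.ext
          rw [hH, hH]
          rw [show p i.1 = x₀ from i.2, show p j.1 = x₀ from j.2]
        · exact hij
      have := H.injective e1
      exact Subtype.ext (congrArg (fun t => t.1) this)
    · intro j
      have hp : p (H.symm (⟨x₀, hxU⟩, j)).1 = x₀ := by
        rw [← hH, H.apply_symm_apply]
      refine ⟨⟨(H.symm (⟨x₀, hxU⟩, j)).1, hp⟩, ?_⟩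
      change (H _).2 = j
      have : (⟨(H.symm (⟨x₀, hxU⟩, j)).1, by rw [Set.mem_preimage, hp]; exact hxU⟩ : p ⁻¹' U) =
        H.symm (⟨x₀, hxU⟩, j) := Subtype.ext rfl
      rw [this, H.apply_symm_apply]
  let σ : (p ⁻¹' {x₀}) → X → Y := fun i x => if hx : x ∈ U then (H.symm (⟨x, hx⟩, lab i)).1 else i.1
  have hσ : ∀ i x (hx : x ∈ U), σ i x = (H.symm (⟨x, hx⟩, lab i)).1 := fun i x hx => dif_pos hx
  have hpσ : ∀ i, ∀ x ∈ U, p (σ i x) = x := by
    intro i x hx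
    rw [hσ i x hx, ← hH, H.apply_symm_apply]
  have hcont : ∀ i, ContinuousOn (σ i) U := by
    intro i
    rw [continuousOn_iff_continuous_domRestrict]
    have : U.domRestrict (σ i) = fun x : U => (H.symm (x, lab i)).1 := by
      funext x
      exact hσ i x.1 x.2
    rw [this]
    fun_prop
  refine ⟨U, hU, hxU, σ, ?_, hpσ, ?_, ?_⟩
  · intro i x hx
    apply MDifferentiableAt.mdifferentiableWithinAt
    have hl := hloc (σ i x)
    have hg := hl.localInverse_mdifferentiableAt (by simp)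
    rw [hpσ i x hx] at hg
    have hcx : ContinuousAt (σ i) x := (hcont i).continuousAt (hU.mem_nhds hx)
    have hev : ∀ᶠ x' in 𝓝 x, hl.localInverse (p (σ i x')) = σ i x' :=
      hcx.eventually hl.localInverse_eventuallyEq_left
    have hev2 : σ i =ᶠ[𝓝 x] hl.localInverse := by
      filter_upwards [hev, hU.mem_nhds hx] with x' h1 h2
      rw [← h1, hpσ i x' h2]
    exact hg.congr_of_eventuallyEq hev2
  · intro y hy
    obtain ⟨i, hi⟩ := hlab.2 (H ⟨y, hy⟩).2
    refine ⟨i, ?_, ?_⟩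
    · change σ i (p y) = y
      rw [hσ i _ hy, hi]
      have : ((⟨p y, hy⟩ : U), (H ⟨y, hy⟩).2) = H ⟨y, hy⟩ := by
        apply Prod.ext
        · exact Subtype.ext (hH ⟨y, hy⟩).symm
        · rfl
      rw [this, H.symm_apply_apply]
    · intro j hj
      apply hlab.1
      rw [hi]
      change σ j (p y) = y at hj
      rw [hσ j _ hy] at hj
      have : (⟨y, hy⟩ : p ⁻¹' U) = H.symm (⟨p y, hy⟩, lab j) := Subtype.ext hj.symm
      rw [this, H.apply_symm_apply]
  · intro i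
    rw [hσ i x₀ hxU]
    have : ((⟨x₀, hxU⟩ : U), lab i) = H ⟨i.1, by rw [Set.mem_preimage, show p i.1 = x₀ from i.2]; exact hxU⟩ := by
      apply Prod.ext
      · apply Subtype.ext
        rw [hH]
        exact (show p i.1 = x₀ from i.2).symm
      · rfl
    rw [this, H.symm_apply_apply]

end Pool.Agent.Helper16.Abund
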