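import Pool.Agent.Helper49.Abund.Mean
import Pool.Agent.Helper91.Abund.PowerSum
import Pool.Agent.Helper8.Abund.FDerivHolo
import Pool.Agent.Helper10.Abund.Pullback
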