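import Pool.Agent.Helper16.Abund.Trace
import Pool.Agent.Helper16.Abund.Inputs

open scoped Manifold ContDiff ENNReal Topology
open MeasureTheory Metric
open Pool.Agent.Helper49.Abund (mean_rpow)

namespace Pool.Agent.Helper16.Abund

variable {n : ℕ} {X Y Z : Type*} [TopologicalSpace X] [ChartedSpace (Fin n → ℂ) X]
    [TopologicalSpace Y] [ChartedSpace (Fin n → ℂ) Y]
    [TopologicalSpace Z] [ChartedSpace (Fin n → ℂ) Z]

theorem mdiff_chart_symm [IsManifold 𝓘(ℂ, Fin n → ℂ) ω X] (x₀ : X) :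
    MDifferentiableOn 𝓘(ℂ, Fin n → ℂ) 𝓘(ℂ, Fin n → ℂ) (chartAt (Fin n → ℂ) x₀).symm
      (chartAt (Fin n → ℂ) x₀).target :=
  mdifferentiableOn_atlas_symm (chart_mem_atlas _ x₀)

theorem mdiff_chart [IsManifold 𝓘(ℂ, Fin n → ℂ) ω X] (x₀ : X) :
    MDifferentiableOn 𝓘(ℂ, Fin n → ℂ) 𝓘(ℂ, Fin n → ℂ) (chartAt (Fin n → ℂ) x₀)
      (chartAt (Fin n → ℂ) x₀).source :=
  mdifferentiableOn_atlas (chart_mem_atlas _ x₀)

theorem IsPluriForm.sheet [IsManifold 𝓘(ℂ, Fin n → ℂ) ω X] {m : ℕ} {η : Y → ℂ}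
    (hη : IsPluriForm n Y m η) {p : Y → X} {x₀ : X} {U : Set X} {σ : (p ⁻¹' {x₀}) → X → Y}
    (S : Sheets (n := n) p x₀ U σ)
    (i : p ⁻¹' {x₀}) {V : Set (Fin n → ℂ)} (hV : IsOpen V) {ψ : (Fin n → ℂ) → X}
    (hψ : MDifferentiableOn 𝓘(ℂ, Fin n → ℂ) 𝓘(ℂ, Fin n → ℂ) ψ V) (hVU : ∀ z ∈ V, ψ z ∈ U) :
    DifferentiableOn ℂ (fun z => η (σ i (ψ z)) * jac n (fun w => σ i (ψ w)) z ^ m) V := by
  apply hη V (fun w => σ i (ψ w)) hV
  intro z hz
  have h1 : MDifferentiableAt 𝓘(ℂ, Fin n → ℂ) 𝓘(ℂ, Fin n → ℂ) ψ z :=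
    hψ.mdifferentiableAt (hV.mem_nhds hz)
  have h2 : MDifferentiableAt 𝓘(ℂ, Fin n → ℂ) 𝓘(ℂ, Fin n → ℂ) (σ i) (ψ z) :=
    (S.mdiff i).mdifferentiableAt (S.isOpen.mem_nhds (hVU z hz))
  exact (h2.comp z h1).mdifferentiableWithinAt

theorem volume_ball_pos {n : ℕ} (z : Fin n → ℂ) {r : ℝ} (hr : 0 < r) :
    0 < volume (ball z r) := measure_ball_pos _ _ hr

theorem volume_ball_eq {n : ℕ} (z w : Fin n → ℂ) (r : ℝ) :
    volume (ball z r) = volume (ball w r) := by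
  have : ball z r = (fun x => x + (w - z)) ⁻¹' ball w r := by
    ext x
    simp only [mem_ball, Set.mem_preimage, dist_eq_norm]
    rw [show x + (w - z) - w = x - z by abel]
  rw [this, measure_preimage_add_right]

/-- Uniform `ℓ^q` bound for the sheets of an `L^q` form, in the chart at `x₀`. -/
theorem exists_bound [IsManifold 𝓘(ℂ, Fin n → ℂ) ω X] {p : Y → X}
    (hloc : IsLocalDiffeomorph 𝓘(ℂ, Fin n → ℂ) 𝓘(ℂ, Fin n → ℂ) ω p) {m : ℕ} {η : Y → ℂ}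
    (hη : IsPluriForm n Y m η) {q : ℝ} (hq : 0 < q) (hLq : FibreLq n p m q η) {x₀ : X}
    {U : Set X} {σ : (p ⁻¹' {x₀}) → X → Y} (S : Sheets (n := n) p x₀ U σ) :
    ∃ r : ℝ, 0 < r ∧ ∃ u : (p ⁻¹' {x₀}) → ℝ, Summable u ∧ (∀ i, 0 ≤ u i) ∧
      ∀ z ∈ ball (chartAt (Fin n → ℂ) x₀ x₀) r, z ∈ (chartAt (Fin n → ℂ) x₀).target ∧
        (chartAt (Fin n → ℂ) x₀).symm z ∈ U ∧
        ∀ i, ‖η (σ i ((chartAt (Fin n → ℂ) x₀).symm z)) *
          jac n (fun w => σ i ((chartAt (Fin n → ℂ) x₀).symm w)) z ^ m‖ ^ q ≤ u i := by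
  classical
  set χ := chartAt (Fin n → ℂ) x₀ with hχ
  obtain ⟨r₀, hr₀, hsub, hint⟩ := hLq x₀
  rw [← hχ] at hsub hint
  -- a smaller ball mapped into `U`
  have hx₀s : x₀ ∈ χ.source := mem_chart_source _ x₀
  have hopen : IsOpen (χ.target ∩ χ.symm ⁻¹' U) := χ.isOpen_inter_preimage_symm S.isOpen
  have hmem : χ x₀ ∈ χ.target ∩ χ.symm ⁻¹' U := by
    refine ⟨χ.map_source hx₀s, ?_⟩
    rw [Set.mem_preimage, χ.left_inv hx₀s]
    exact S.mem
  obtain ⟨r₁, hr₁, hsub₁⟩ := Metric.isOpen_iff.1 hopen _ hmem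
  set r : ℝ := min r₀ r₁ / 2 with hr
  have hrpos : 0 < r := by rw [hr]; positivity
  have h2r0 : 2 * r ≤ r₀ := by rw [hr]; linarith [min_le_left r₀ r₁]
  have h2r1 : 2 * r ≤ r₁ := by rw [hr]; linarith [min_le_right r₀ r₁]
  let g : (p ⁻¹' {x₀}) → (Fin n → ℂ) → ℂ := fun i z =>
    η (σ i (χ.symm z)) * jac n (fun w => σ i (χ.symm w)) z ^ m
  have hB2 : ∀ z ∈ ball (χ x₀) (2 * r), z ∈ χ.target ∧ χ.symm z ∈ U := by
    intro z hz
    exact hsub₁ (ball_subset_ball h2r1 hz)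
  have hg : ∀ i, DifferentiableOn ℂ (g i) (ball (χ x₀) (2 * r)) := by
    intro i
    exact hη.sheet S i isOpen_ball ((mdiff_chart_symm x₀).mono fun z hz => (hB2 z hz).1)
      fun z hz => (hB2 z hz).2
  -- the integrand over the ball
  have hpt : ∀ z ∈ ball (χ x₀) (2 * r), ∑' y : p ⁻¹' {χ.symm z},
      ENNReal.ofReal (‖η y * (jac n χ.symm z / jac n p y.1) ^ m‖ ^ q) =
      ∑' i, ENNReal.ofReal (‖g i z‖ ^ q) := by
    intro z hz
    rw [S.tsum_fibre (hB2 z hz).2 (fun y => ENNReal.ofReal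
      (‖η y * (jac n χ.symm z / jac n p y) ^ m‖ ^ q))]
    congr 1
    funext i
    have : jac n (fun w => σ i (χ.symm w)) z = jac n χ.symm z / jac n p (σ i (χ.symm z)) :=
      S.jac_comp_sheet hloc i ((mdiff_chart_symm x₀).mdifferentiableAt
        (χ.open_target.mem_nhds (hB2 z hz).1)) (hB2 z hz).2
    simp only [g, this]
  let J : (p ⁻¹' {x₀}) → ℝ≥0∞ := fun i =>
    ∫⁻ z in ball (χ x₀) (2 * r), ENNReal.ofReal (‖g i z‖ ^ q)
  have hmeas : ∀ i, AEMeasurable (fun z => ENNReal.ofReal (‖g i z‖ ^ q))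
      (volume.restrict (ball (χ x₀) (2 * r))) := by
    intro i
    have h1 : ContinuousOn (fun z => ‖g i z‖ ^ q) (ball (χ x₀) (2 * r)) := by
      apply ContinuousOn.rpow_const
      · exact (hg i).continuousOn.norm
      · intro z _
        exact Or.inr hq.le
    exact (h1.aemeasurable measurableSet_ball).ennreal_ofReal
  have hJ : ∑' i, J i < ⊤ := by
    refine lt_of_le_of_lt ?_ hint
    have hle : ∑' i, J i ≤ ∫⁻ z in ball (χ x₀) (2 * r), ∑' i, ENNReal.ofReal (‖g i z‖ ^ q) := by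
      rw [ENNReal.tsum_eq_iSup_sum]
      apply iSup_le
      intro s
      rw [← lintegral_finsetSum' s fun i _ => hmeas i]
      apply lintegral_mono
      intro z
      exact ENNReal.sum_le_tsum s
    refine hle.trans ?_
    calc ∫⁻ z in ball (χ x₀) (2 * r), ∑' i, ENNReal.ofReal (‖g i z‖ ^ q)
        = ∫⁻ z in ball (χ x₀) (2 * r), ∑' y : p ⁻¹' {χ.symm z},
            ENNReal.ofReal (‖η y * (jac n χ.symm z / jac n p y.1) ^ m‖ ^ q) := by
          apply setLIntegral_congr_fun measurableSet_ball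
          intro z hz
          exact (hpt z hz).symm
      _ ≤ _ := lintegral_mono_set (ball_subset_ball h2r0)
  set v : ℝ≥0∞ := volume (ball (χ x₀) r) with hv
  have hv0 : v ≠ 0 := (volume_ball_pos _ hrpos).ne'
  have hvt : v ≠ ⊤ := measure_ball_lt_top.ne
  have hJi : ∀ i, J i ≠ ⊤ := fun i => ((ENNReal.le_tsum i).trans_lt hJ).ne
  refine ⟨r, hrpos, fun i => (J i / v).toReal, ?_, fun i => ENNReal.toReal_nonneg, ?_⟩
  · apply ENNReal.summable_toReal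
    have : ∑' i, J i / v = (∑' i, J i) / v := by
      simp only [div_eq_mul_inv]
      rw [ENNReal.tsum_mul_right]
    rw [this]
    exact (ENNReal.div_lt_top hJ.ne hv0).ne
  · intro z hz
    have hz2 : z ∈ ball (χ x₀) (2 * r) := ball_subset_ball (by linarith) hz
    refine ⟨(hB2 z hz2).1, (hB2 z hz2).2, ?_⟩
    intro i
    change ‖g i z‖ ^ q ≤ (J i / v).toReal
    have hsubz : ball z r ⊆ ball (χ x₀) (2 * r) := by
      apply ball_subset_ball'
      have := (mem_ball.1 hz).le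
      linarith
    have h1 := mean_rpow hrpos ((hg i).mono hsubz) hq
    rw [volume_ball_eq z (χ x₀) r, ← hv] at h1
    have h2 : ENNReal.ofReal (‖g i z‖ ^ q) * v ≤ J i := h1.trans (lintegral_mono_set hsubz)
    have h3 : ENNReal.ofReal (‖g i z‖ ^ q) ≤ J i / v := by
      rw [ENNReal.le_div_iff_mul_le (Or.inl hv0) (Or.inl hvt)]
      exact h2
    have h4 : J i / v ≠ ⊤ := (ENNReal.div_lt_top (hJi i) hv0).ne
    exact (ENNReal.ofReal_le_iff_le_toReal h4).1 h3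

end Pool.Agent.Helper16.Abund
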