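import Mathlib

open scoped Topology
open Metric

namespace Pool.Agent.Helper16.Abund

/-- Cauchy estimate for the Fréchet derivative. -/
theorem norm_fderiv_le {E F : Type*} [NormedAddCommGroup E] [NormedSpace ℂ E]
    [NormedAddCommGroup F] [NormedSpace ℂ F] {f : E → F} {z : E} {ρ M : ℝ} (hρ : 0 < ρ)
    (hf : DifferentiableOn ℂ f (ball z ρ)) (hM : ∀ w ∈ ball z ρ, ‖f w‖ ≤ M) :
    ‖fderiv ℂ f z‖ ≤ 2 * M / ρ := by
  have hz : z ∈ ball z ρ := mem_ball_self hρ
  have hM0 : 0 ≤ M := (norm_nonneg _).trans (hM z hz)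
  refine ContinuousLinearMap.opNorm_le_bound _ (by positivity) ?_
  intro v
  by_cases hv : v = 0
  · simp [hv]
  have hv' : 0 < ‖v‖ := norm_pos_iff.2 hv
  have hR : 0 < ρ / (2 * ‖v‖) := by positivity
  have hmem : ∀ t : ℂ, ‖t‖ ≤ ρ / (2 * ‖v‖) → z + t • v ∈ ball z ρ := by
    intro t ht
    rw [mem_ball, dist_eq_norm, add_sub_cancel_left, norm_smul]
    calc ‖t‖ * ‖v‖ ≤ ρ / (2 * ‖v‖) * ‖v‖ := by gcongr
      _ = ρ / 2 := by field_simp
      _ < ρ := by linarith
  have hd : ∀ t : ℂ, ‖t‖ ≤ ρ / (2 * ‖v‖) → HasDerivAt (fun t : ℂ => f (z + t • v))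
      (fderiv ℂ f (z + t • v) v) t := by
    intro t ht
    have h1 : HasFDerivAt f (fderiv ℂ f (z + t • v)) (z + t • v) :=
      (hf.differentiableAt (isOpen_ball.mem_nhds (hmem t ht))).hasFDerivAt
    have h2 : HasDerivAt (fun t : ℂ => z + t • v) v t := by
      simpa using ((hasDerivAt_id t).smul_const v).const_add z
    exact h1.comp_hasDerivAt t h2
  have hdc : DiffContOnCl ℂ (fun t : ℂ => f (z + t • v)) (ball 0 (ρ / (2 * ‖v‖))) := by
    apply DifferentiableOn.diffContOnCl
    rw [closure_ball _ hR.ne']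
    intro t ht
    rw [mem_closedBall_zero_iff] at ht
    exact (hd t ht).differentiableAt.differentiableWithinAt
  have key := Complex.norm_deriv_le_of_forall_mem_sphere_norm_le (C := M) hR hdc (by
    intro t ht
    rw [mem_sphere_zero_iff_norm] at ht
    exact hM _ (hmem t ht.le))
  have e : deriv (fun t : ℂ => f (z + t • v)) 0 = fderiv ℂ f z v := by
    have := (hd 0 (by simpa using hR.le)).deriv
    simpa using this
  rw [e] at key
  calc ‖fderiv ℂ f z v‖ ≤ M / (ρ / (2 * ‖v‖)) := key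
    _ = 2 * M / ρ * ‖v‖ := by field_simp

/-- Weierstrass M-test for holomorphic functions on an open subset of a normed space. -/
theorem differentiableOn_tsum {E F : Type*} [NormedAddCommGroup E] [NormedSpace ℂ E]
    [NormedAddCommGroup F] [NormedSpace ℂ F] [CompleteSpace F] {ι : Type*} {f : ι → E → F}
    {u : ι → ℝ} {U : Set E} (hU : IsOpen U) (hf : ∀ i, DifferentiableOn ℂ (f i) U)
    (hu : Summable u) (hb : ∀ i, ∀ z ∈ U, ‖f i z‖ ≤ u i) :
    DifferentiableOn ℂ (fun z => ∑' i, f i z) U := by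
  intro z hz
  obtain ⟨ρ, hρ, hsub⟩ := Metric.isOpen_iff.1 hU z hz
  have h2 : 0 < ρ / 2 := by positivity
  have hball : ∀ w ∈ ball z (ρ / 2), ball w (ρ / 2) ⊆ U := by
    intro w hw
    refine (ball_subset_ball' ?_).trans hsub
    have := (mem_ball.1 hw).le
    linarith
  have hmain := hasFDerivAt_tsum_of_isPreconnected (𝕜 := ℂ) (f := f) (f' := fun i w => fderiv ℂ (f i) w)
    (u := fun i => 2 * u i / (ρ / 2)) (s := ball z (ρ / 2)) (x₀ := z) (x := z)
    ((hu.mul_left 2).div_const _) isOpen_ball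
    (convex_ball z (ρ / 2)).isPreconnected
    (by
      intro i w hw
      exact ((hf i).differentiableAt (hU.mem_nhds (hball w hw (mem_ball_self h2)))).hasFDerivAt)
    (by
      intro i w hw
      exact norm_fderiv_le h2 ((hf i).mono (hball w hw)) fun x hx => hb i x (hball w hw hx))
    (mem_ball_self h2)
    (Summable.of_norm_bounded hu fun i => hb i z hz)
    (mem_ball_self h2)
  exact hmain.differentiableAt.differentiableWithinAt

end Pool.Agent.Helper16.Abund
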