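import Pool.Agent.Helper16.Abund.Trace2

open scoped Manifold ContDiff ENNReal Topology
open MeasureTheory Metric
open Pool.Agent.Helper8.Abund (differentiableOn_fderiv)

namespace Pool.Agent.Helper16.Abund

variable {n : ℕ} {X Y Z : Type*} [TopologicalSpace X] [ChartedSpace (Fin n → ℂ) X]
    [TopologicalSpace Y] [ChartedSpace (Fin n → ℂ) Y]
    [TopologicalSpace Z] [ChartedSpace (Fin n → ℂ) Z]

/-- power comparison of bounds -/
theorem norm_pow_le_rpow {a u q : ℝ} (ha : 0 ≤ a) (hq : 0 < q) (hu : a ^ q ≤ u) (k : ℕ) :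
    a ^ k ≤ u ^ ((k : ℝ) / q) := by
  have h1 : a = (a ^ q) ^ (1 / q) := by
    rw [← Real.rpow_mul ha, mul_one_div_cancel hq.ne', Real.rpow_one]
  have h2 : a ≤ u ^ (1 / q) := by
    conv_lhs => rw [h1]
    exact Real.rpow_le_rpow (by positivity) hu (by positivity)
  have hu0 : 0 ≤ u := (Real.rpow_nonneg ha q).trans hu
  calc a ^ k ≤ (u ^ (1 / q)) ^ k := by gcongr
    _ = u ^ ((k : ℝ) / q) := by
      rw [← Real.rpow_natCast, ← Real.rpow_mul hu0]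
      congr 1
      ring

theorem summable_rpow_of_one_le {ι : Type*} {u : ι → ℝ} (hu : Summable u) (h0 : ∀ i, 0 ≤ u i)
    {s : ℝ} (hs : 1 ≤ s) : Summable fun i => u i ^ s := by
  have hev : ∀ᶠ i in Filter.cofinite, u i ≤ 1 := by
    have := hu.tendsto_cofinite_zero
    filter_upwards [this.eventually (ge_mem_nhds (zero_lt_one))] with i hi
    exact hi
  refine Summable.of_norm_bounded_eventually hu ?_
  filter_upwards [hev] with i hi
  rw [Real.norm_of_nonneg (Real.rpow_nonneg (h0 i) s)]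
  calc u i ^ s ≤ u i ^ (1 : ℝ) := Real.rpow_le_rpow_of_exponent_ge' (h0 i) hi (by norm_num) hs
    _ = u i := Real.rpow_one _

/-- jacobians of holomorphic maps between open subsets of `ℂⁿ` are locally bounded. -/
theorem exists_jac_bound {V : Set (Fin n → ℂ)} (hV : IsOpen V) {h : (Fin n → ℂ) → (Fin n → ℂ)}
    (hh : DifferentiableOn ℂ h V) {z₀ : Fin n → ℂ} (hz : z₀ ∈ V) :
    ∃ C : ℝ, 0 ≤ C ∧ ∀ᶠ z in 𝓝 z₀, ‖jac n h z‖ ≤ C := by
  have h1 : ContinuousAt (fderiv ℂ h) z₀ :=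
    (differentiableOn_fderiv hV hh).continuousOn.continuousAt (hV.mem_nhds hz)
  have h2 : ContinuousAt (fun z => ‖(fderiv ℂ h z).det‖) z₀ :=
    (ContinuousLinearMap.continuous_det.continuousAt.comp h1).norm
  refine ⟨‖(fderiv ℂ h z₀).det‖ + 1, by positivity, ?_⟩
  filter_upwards [h2.eventually (ge_mem_nhds (lt_add_one _))] with z hz
  rw [jac_eq_fderiv]
  exact hz

/-- In the pull back by `ψ`, the trace is the sum over the sheets. -/
theorem trace_mul_jac {p : Y → X}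
    (hloc : IsLocalDiffeomorph 𝓘(ℂ, Fin n → ℂ) 𝓘(ℂ, Fin n → ℂ) ω p) {m : ℕ} {η : Y → ℂ}
    {x₀ : X} {U : Set X} {σ : (p ⁻¹' {x₀}) → X → Y} (S : Sheets (n := n) p x₀ U σ)
    (k : ℕ) {ψ : (Fin n → ℂ) → X} {z : Fin n → ℂ}
    (hψ : MDifferentiableAt 𝓘(ℂ, Fin n → ℂ) 𝓘(ℂ, Fin n → ℂ) ψ z) (hz : ψ z ∈ U) :
    trace n p m k η (ψ z) * jac n ψ z ^ (m * k) =
      ∑' i, (η (σ i (ψ z)) * jac n (fun w => σ i (ψ w)) z ^ m) ^ k := by
  unfold trace
  rw [S.tsum_fibre hz (fun y => (η y / jac n p y ^ m) ^ k), ← tsum_mul_right]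
  congr 1
  funext i
  rw [S.jac_comp_sheet hloc i hψ hz, pow_mul, ← mul_pow]
  congr 1
  rw [div_pow]
  ring

/-- **The trace of the `k`-th power of an `L^q` pluricanonical form, `k ≥ q`, is a pluricanonical
form.** -/
theorem isPluriForm_trace [IsManifold 𝓘(ℂ, Fin n → ℂ) ω X] {p : Y → X} (hcov : IsCoveringMap p)
    (hloc : IsLocalDiffeomorph 𝓘(ℂ, Fin n → ℂ) 𝓘(ℂ, Fin n → ℂ) ω p) {m : ℕ} {η : Y → ℂ}
    (hη : IsPluriForm n Y m η) {q : ℝ} (hq : 0 < q) (hLq : FibreLq n p m q η) {k : ℕ}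
    (hk : q ≤ k) : IsPluriForm n X (m * k) (trace n p m k η) := by
  classical
  intro V ψ hV hψ z₀ hz₀
  set x₀ := ψ z₀ with hx₀
  obtain ⟨U, σ, S⟩ := exists_sheets (n := n) hcov hloc x₀
  obtain ⟨r, hr, u, hu, hu0, hb⟩ := exists_bound hloc hη hq hLq S
  set χ := chartAt (Fin n → ℂ) x₀ with hχ
  have hψc : ContinuousAt ψ z₀ := (hψ.mdifferentiableAt (hV.mem_nhds hz₀)).continuousAt
  -- the open set where everything is defined
  have hsrc : ∀ᶠ z in 𝓝 z₀, ψ z ∈ χ.source :=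
    hψc.preimage_mem_nhds (χ.open_source.mem_nhds (mem_chart_source _ x₀))
  have hUn : ∀ᶠ z in 𝓝 z₀, ψ z ∈ U := hψc.preimage_mem_nhds (S.isOpen.mem_nhds S.mem)
  obtain ⟨V₁, hV₁sub, hV₁o, hz₀V₁⟩ := _root_.mem_nhds_iff.1
    (Filter.inter_mem (hV.mem_nhds hz₀) (hsrc.and hUn))
  have hψ₁ : MDifferentiableOn 𝓘(ℂ, Fin n → ℂ) 𝓘(ℂ, Fin n → ℂ) ψ V₁ :=
    hψ.mono fun z hz => (hV₁sub hz).1
  have hψat : ∀ z ∈ V₁, MDifferentiableAt 𝓘(ℂ, Fin n → ℂ) 𝓘(ℂ, Fin n → ℂ) ψ z :=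
    fun z hz => hψ₁.mdifferentiableAt (hV₁o.mem_nhds hz)
  have hχat : ∀ z ∈ V₁, MDifferentiableAt 𝓘(ℂ, Fin n → ℂ) 𝓘(ℂ, Fin n → ℂ) χ (ψ z) :=
    fun z hz => (mdiff_chart x₀).mdifferentiableAt (χ.open_source.mem_nhds (hV₁sub hz).2.1)
  have hχψ : ∀ z ∈ V₁, MDifferentiableAt 𝓘(ℂ, Fin n → ℂ) 𝓘(ℂ, Fin n → ℂ) (χ ∘ ψ) z :=
    fun z hz => (hχat z hz).comp z (hψat z hz)
  have hh : DifferentiableOn ℂ (χ ∘ ψ) V₁ := fun z hz =>
    (hχψ z hz).differentiableAt.differentiableWithinAt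
  obtain ⟨C, hC, hCb⟩ := exists_jac_bound hV₁o hh hz₀V₁
  have hballn : ∀ᶠ z in 𝓝 z₀, (χ ∘ ψ) z ∈ ball (χ x₀) r :=
    (hχψ z₀ hz₀V₁).continuousAt.preimage_mem_nhds (isOpen_ball.mem_nhds (mem_ball_self hr))
  obtain ⟨W, hWsub, hWo, hz₀W⟩ := _root_.mem_nhds_iff.1
    (Filter.inter_mem (hV₁o.mem_nhds hz₀V₁) (hCb.and hballn))
  -- the summands
  let H : (p ⁻¹' {x₀}) → (Fin n → ℂ) → ℂ := fun i z =>
    (η (σ i (ψ z)) * jac n (fun w => σ i (ψ w)) z ^ m) ^ k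
  have hHd : ∀ i, DifferentiableOn ℂ (H i) W := by
    intro i
    exact (hη.sheet S i hWo (hψ₁.mono fun z hz => (hWsub hz).1)
      fun z hz => (hV₁sub (hWsub hz).1).2.2).pow k
  have hHb : ∀ i, ∀ z ∈ W, ‖H i z‖ ≤ C ^ (m * k) * u i ^ ((k : ℝ) / q) := by
    intro i z hz
    have hzV := (hWsub hz).1
    have hzs := (hV₁sub hzV).2.1
    have hzU := (hV₁sub hzV).2.2
    have hzb : χ (ψ z) ∈ ball (χ x₀) r := (hWsub hz).2.2
    obtain ⟨ht, hU', hbi⟩ := hb _ hzb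
    rw [χ.left_inv hzs] at hU' 
    have hb' := hbi i
    rw [χ.left_inv hzs] at hb'
    -- chain rule
    have e1 : jac n (fun w => σ i (ψ w)) z =
        jac n (fun w => σ i (χ.symm w)) (χ (ψ z)) * jac n (χ ∘ ψ) z := by
      have hs : MDifferentiableAt 𝓘(ℂ, Fin n → ℂ) 𝓘(ℂ, Fin n → ℂ) χ.symm (χ (ψ z)) :=
        (mdiff_chart_symm x₀).mdifferentiableAt (χ.open_target.mem_nhds ht)
      have hσ : MDifferentiableAt 𝓘(ℂ, Fin n → ℂ) 𝓘(ℂ, Fin n → ℂ) (σ i)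
          (χ.symm (χ (ψ z))) := by
        rw [χ.left_inv hzs]
        exact (S.mdiff i).mdifferentiableAt (S.isOpen.mem_nhds hzU)
      have hc : MDifferentiableAt 𝓘(ℂ, Fin n → ℂ) 𝓘(ℂ, Fin n → ℂ)
          (fun w => σ i (χ.symm w)) ((χ ∘ ψ) z) := hσ.comp _ hs
      refine Eq.trans ?_ (jac_comp hc (hχψ z hzV))
      apply jac_congr
      filter_upwards [hV₁o.mem_nhds hzV] with w hw
      simp only [Function.comp_apply]
      rw [χ.left_inv (hV₁sub hw).2.1]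
    have e2 : H i z = (η (σ i (ψ z)) *
        jac n (fun w => σ i (χ.symm w)) (χ (ψ z)) ^ m) ^ k * jac n (χ ∘ ψ) z ^ (m * k) := by
      simp only [H]
      rw [e1, mul_pow _ _ m, pow_mul, ← mul_pow _ _ k]
      congr 1
      ring
    rw [e2, norm_mul, norm_pow, norm_pow, mul_comm]
    apply mul_le_mul
    · exact pow_le_pow_left₀ (norm_nonneg _) (hWsub hz).2.1 _
    · exact norm_pow_le_rpow (norm_nonneg _) hq hb' k
    · positivity
    · positivity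
  have hk1 : 1 ≤ (k : ℝ) / q := by rwa [one_le_div hq]
  have hsum : Summable fun i => C ^ (m * k) * u i ^ ((k : ℝ) / q) :=
    (summable_rpow_of_one_le hu hu0 hk1).mul_left _
  have hD := differentiableOn_tsum hWo hHd hsum hHb
  have hDat : DifferentiableAt ℂ (fun z => ∑' i, H i z) z₀ :=
    hD.differentiableAt (hWo.mem_nhds hz₀W)
  have hev : (fun z => trace n p m k η (ψ z) * jac n ψ z ^ (m * k)) =ᶠ[𝓝 z₀]
      fun z => ∑' i, H i z := by
    filter_upwards [hWo.mem_nhds hz₀W] with z hz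
    exact trace_mul_jac hloc S k (hψat z (hWsub hz).1) (hV₁sub (hWsub hz).1).2.2
  exact (hDat.congr_of_eventuallyEq hev).differentiableWithinAt

/-- The values of an `L^q` form along a fibre form an `ℓ^q` family. -/
theorem summable_fibre_rpow [IsManifold 𝓘(ℂ, Fin n → ℂ) ω X] {p : Y → X}
    (hcov : IsCoveringMap p)
    (hloc : IsLocalDiffeomorph 𝓘(ℂ, Fin n → ℂ) 𝓘(ℂ, Fin n → ℂ) ω p) {m : ℕ} {η : Y → ℂ}
    (hη : IsPluriForm n Y m η) {q : ℝ} (hq : 0 < q) (hLq : FibreLq n p m q η) (x : X) :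
    Summable fun y : p ⁻¹' {x} => ‖η y / jac n p y.1 ^ m‖ ^ q := by
  obtain ⟨U, σ, S⟩ := exists_sheets (n := n) hcov hloc x
  obtain ⟨r, hr, u, hu, hu0, hb⟩ := exists_bound hloc hη hq hLq S
  set χ := chartAt (Fin n → ℂ) x with hχ
  rw [S.summable_fibre S.mem (fun y => ‖η y / jac n p y ^ m‖ ^ q)]
  obtain ⟨ht, hU', hbi⟩ := hb _ (mem_ball_self hr)
  have hxs : x ∈ χ.source := mem_chart_source _ x
  have hs : MDifferentiableAt 𝓘(ℂ, Fin n → ℂ) 𝓘(ℂ, Fin n → ℂ) χ.symm (χ x) :=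
    (mdiff_chart_symm x).mdifferentiableAt (χ.open_target.mem_nhds ht)
  have hbase : jac n χ.symm (χ x) ≠ 0 := by
    have h1 : MDifferentiableAt 𝓘(ℂ, Fin n → ℂ) 𝓘(ℂ, Fin n → ℂ) χ (χ.symm (χ x)) := by
      rw [χ.left_inv hxs]
      exact (mdiff_chart x).mdifferentiableAt (χ.open_source.mem_nhds hxs)
    have := jac_mul_eq_one h1 hs (by
      filter_upwards [χ.open_target.mem_nhds ht] with w hw
      exact χ.right_inv hw)
    intro h0
    rw [h0, mul_zero] at this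
    exact zero_ne_one this
  -- compare
  set J : ℝ := ‖jac n χ.symm (χ x) ^ m‖ ^ q with hJ
  have hJ0 : 0 < J := by
    apply Real.rpow_pos_of_pos
    exact norm_pos_iff.2 (pow_ne_zero _ hbase)
  have hsum : Summable fun i => J⁻¹ * u i := hu.mul_left _
  refine Summable.of_nonneg_of_le (fun i => by positivity) (fun i => ?_) hsum
  have h1 := hbi i
  have hU'' : χ.symm (χ x) ∈ U := hU'
  rw [S.jac_comp_sheet hloc i hs hU'', χ.left_inv hxs] at h1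
  have h2 : η (σ i x) * (jac n χ.symm (χ x) / jac n p (σ i x)) ^ m =
      (η (σ i x) / jac n p (σ i x) ^ m) * jac n χ.symm (χ x) ^ m := by
    rw [div_pow]
    ring
  rw [h2, norm_mul, Real.mul_rpow (norm_nonneg _) (norm_nonneg _), ← hJ] at h1
  rw [inv_mul_eq_div, le_div_iff₀ hJ0]
  exact h1

end Pool.Agent.Helper16.Abund
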