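import Pool.Agent.Helper16.Abund.Defs

/-! Three ways in which coverings of `X` produce pluricanonical forms at a point of `X`. -/

open scoped Manifold ContDiff ENNReal
open MeasureTheory

namespace Pool.Agent.Helper16.Abund

universe u

/-- Some holomorphic covering `p : Y → X` by a complex manifold `Y` (finite or infinite, Galois or
not, connected or not) carries an `m`-canonical form `η`, `m ≥ 1`, which is in `L^q` over `X` for
some `0 < q < ∞` and does not vanish at some point `y` over `x`. -/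
def LqGeneratedAt (n : ℕ) (X : Type u) [TopologicalSpace X] [ChartedSpace (Fin n → ℂ) X]
    (x : X) : Prop :=
  ∃ (Y : Type u) (_ : TopologicalSpace Y) (_ : ChartedSpace (Fin n → ℂ) Y)
    (_ : IsManifold 𝓘(ℂ, Fin n → ℂ) ω Y) (p : Y → X) (m : ℕ) (q : ℝ) (η : Y → ℂ) (y : Y),
    IsCoveringMap p ∧ IsLocalDiffeomorph 𝓘(ℂ, Fin n → ℂ) 𝓘(ℂ, Fin n → ℂ) ω p ∧
      1 ≤ m ∧ 0 < q ∧ IsPluriForm n Y m η ∧ FibreLq n p m q η ∧ p y = x ∧ η y ≠ 0

/-- The same with an `m`-canonical form `η` on `Y` of finite total mass `∫ |η|^{2/m}`. -/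
def MassGeneratedAt (n : ℕ) (X : Type u) [TopologicalSpace X] [ChartedSpace (Fin n → ℂ) X]
    (x : X) : Prop :=
  ∃ (Y : Type u) (_ : TopologicalSpace Y) (_ : ChartedSpace (Fin n → ℂ) Y)
    (_ : IsManifold 𝓘(ℂ, Fin n → ℂ) ω Y) (p : Y → X) (m : ℕ) (η : Y → ℂ) (y : Y),
    IsCoveringMap p ∧ IsLocalDiffeomorph 𝓘(ℂ, Fin n → ℂ) 𝓘(ℂ, Fin n → ℂ) ω p ∧
      1 ≤ m ∧ IsPluriForm n Y m η ∧ FiniteMass n m η ∧ p y = x ∧ η y ≠ 0

/-- Some holomorphic covering `p : Y → X` has a holomorphic map `g : Y → Z` to a compact complex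
manifold `Z` of the same dimension all of whose fibres have at most `N` points, which is unramified
at some point `y` over `x`, and some `m`-canonical form `s` of `Z`, `m ≥ 1`, does not vanish at
`g y`. For instance `Y` may be an open subset of `Z`. -/
def TransferAt (n : ℕ) (X : Type u) [TopologicalSpace X] [ChartedSpace (Fin n → ℂ) X]
    (x : X) : Prop :=
  ∃ (Y Z : Type u) (_ : TopologicalSpace Y) (_ : ChartedSpace (Fin n → ℂ) Y)
    (_ : IsManifold 𝓘(ℂ, Fin n → ℂ) ω Y) (_ : TopologicalSpace Z) (_ : T2Space Z)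
    (_ : CompactSpace Z) (_ : ChartedSpace (Fin n → ℂ) Z) (_ : IsManifold 𝓘(ℂ, Fin n → ℂ) ω Z)
    (p : Y → X) (g : Y → Z) (m N : ℕ) (s : Z → ℂ) (y : Y),
    IsCoveringMap p ∧ IsLocalDiffeomorph 𝓘(ℂ, Fin n → ℂ) 𝓘(ℂ, Fin n → ℂ) ω p ∧
      MDifferentiable 𝓘(ℂ, Fin n → ℂ) 𝓘(ℂ, Fin n → ℂ) g ∧
      (∀ z : Z, (g ⁻¹' {z}).encard ≤ N) ∧ 1 ≤ m ∧ IsPluriForm n Z m s ∧ p y = x ∧
      jac n g y ≠ 0 ∧ s (g y) ≠ 0

end Pool.Agent.Helper16.Abund
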