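import Mathlib

/-!
Pluricanonical forms on complex manifolds modelled on `Fin n → ℂ`.

An `m`-canonical form (a holomorphic section of the `m`-th power of the canonical bundle) on `X` is
recorded by the function `c : X → ℂ` whose value at `x` is its coefficient with respect to
`(dz₁ ∧ ... ∧ dzₙ)^m`, where `z` is the preferred chart `chartAt x` of `X` at `x`.
-/

open scoped Manifold ContDiff ENNReal
open MeasureTheory

namespace Pool.Agent.Helper16.Abund

/-- The complex Jacobian determinant of a map `f` between two `n`-dimensional complex manifolds at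
the point `x`, computed in the preferred charts at `x` and at `f x`. -/
noncomputable def jac (n : ℕ) {X Y : Type*} [TopologicalSpace X] [ChartedSpace (Fin n → ℂ) X]
    [TopologicalSpace Y] [ChartedSpace (Fin n → ℂ) Y] (f : X → Y) (x : X) : ℂ :=
  ContinuousLinearMap.det
    (mfderiv 𝓘(ℂ, Fin n → ℂ) 𝓘(ℂ, Fin n → ℂ) f x : (Fin n → ℂ) →L[ℂ] (Fin n → ℂ))

/-- `c` is (the coefficient function of) an `m`-canonical form on `X`: for every holomorphic map `ψ`
from an open subset `V` of `ℂⁿ` to `X`, the pulled back form `c(ψ(z)) · (det dψ(z))^m · (dz)^m` is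
holomorphic on `V`. -/
def IsPluriForm (n : ℕ) (X : Type*) [TopologicalSpace X] [ChartedSpace (Fin n → ℂ) X]
    (m : ℕ) (c : X → ℂ) : Prop :=
  ∀ (V : Set (Fin n → ℂ)) (ψ : (Fin n → ℂ) → X), IsOpen V →
    MDifferentiableOn 𝓘(ℂ, Fin n → ℂ) 𝓘(ℂ, Fin n → ℂ) ψ V →
    DifferentiableOn ℂ (fun z => c (ψ z) * jac n ψ z ^ m) V

/-- The canonical bundle of `X` is semiample: for some `m ≥ 1` the `m`-canonical forms have no common
zero. -/
def CanSemiample (n : ℕ) (X : Type*) [TopologicalSpace X] [ChartedSpace (Fin n → ℂ) X] : Prop :=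
  ∃ m : ℕ, 1 ≤ m ∧ ∀ x : X, ∃ c : X → ℂ, IsPluriForm n X m c ∧ c x ≠ 0

/-- The `m`-canonical form `η` on the covering space `X'` of `X` is in `L^q` over `X`: near every
point `x₀` of `X`, in the chart `z = chartAt x₀`, the sum over the fibre of `p` of the `q`-th powers
of the absolute values of the coefficients of `η` with respect to `(dz)^m` is integrable. -/
def FibreLq (n : ℕ) {X X' : Type*} [TopologicalSpace X] [ChartedSpace (Fin n → ℂ) X]
    [TopologicalSpace X'] [ChartedSpace (Fin n → ℂ) X'] (p : X' → X) (m : ℕ) (q : ℝ)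
    (η : X' → ℂ) : Prop :=
  ∀ x₀ : X, ∃ r : ℝ, 0 < r ∧
    Metric.ball (chartAt (Fin n → ℂ) x₀ x₀) r ⊆ (chartAt (Fin n → ℂ) x₀).target ∧
    ∫⁻ z in Metric.ball (chartAt (Fin n → ℂ) x₀ x₀) r,
      ∑' y : p ⁻¹' {(chartAt (Fin n → ℂ) x₀).symm z},
        ENNReal.ofReal (‖η y * (jac n (chartAt (Fin n → ℂ) x₀).symm z / jac n p y.1) ^ m‖ ^ q) < ⊤

/-- The total mass `∫ |η|^{2/m}` of the `m`-canonical form `η` on `Y` is finite: the masses over
finitely many disjoint open coordinate pieces of `Y` are bounded by one constant. -/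
def FiniteMass (n : ℕ) {Y : Type*} [TopologicalSpace Y] [ChartedSpace (Fin n → ℂ) Y]
    (m : ℕ) (η : Y → ℂ) : Prop :=
  ∃ C : ℝ, ∀ (N : ℕ) (V : Fin N → Set (Fin n → ℂ)) (ψ : Fin N → (Fin n → ℂ) → Y),
    (∀ i, IsOpen (V i)) →
    (∀ i, MDifferentiableOn 𝓘(ℂ, Fin n → ℂ) 𝓘(ℂ, Fin n → ℂ) (ψ i) (V i)) →
    (∀ i, Set.InjOn (ψ i) (V i)) →
    (Pairwise fun i j => Disjoint (ψ i '' V i) (ψ j '' V j)) →
    ∑ i, ∫⁻ z in V i, ENNReal.ofReal (‖η (ψ i z) * jac n (ψ i) z ^ m‖ ^ (2 / (m : ℝ)))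
      ≤ ENNReal.ofReal C

end Pool.Agent.Helper16.Abund
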