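import Pool.Agent.Helper10.Abund.OpenSub
import Pool.Agent.Helper10.Abund.MassOn
import Pool.Agent.Helper88.Abund.Transversal
import Pool.Agent.Helper81.Abund.Kappa
import Pool.Agent.Helper83.Abund.Sympl
import Pool.Agent.Helper24.Abund.FundMass
import Pool.Agent.Helper11.Abund.Average
import Pool.Agent.Helper16.Abund.Defs2
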