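import Pool.Agent.Helper16.Abund.Torus1

open scoped Manifold ContDiff ENNReal Topology ComplexConjugate ComplexOrder
open MeasureTheory Metric
open Pool.Agent.Helper10.Abund (jac_shift)
open Pool.Agent.Helper81.Abund (kappa_const)
open Pool.Agent.Helper83.Abund (det_le_of_symplectic)
open Pool.Agent.Helper11.Abund (exists_kahOp kahForm_comp exists_average)

namespace Pool.Agent.Helper16.Abund

variable {b k : ℕ}

/-- The real linear map taking the lattice basis at `z₁` to the one at `z`. -/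
noncomputable def latMap {Λ : (Fin b → ℂ) → Fin (2 * k) → Fin k → ℂ} {z₁ : Fin b → ℂ}
    (h : LinearIndependent ℝ (Λ z₁)) (z : Fin b → ℂ) : (Fin k → ℂ) →ₗ[ℝ] (Fin k → ℂ) :=
  (latBasis h).constr ℝ (Λ z)

theorem latMap_apply {Λ : (Fin b → ℂ) → Fin (2 * k) → Fin k → ℂ} {z₁ : Fin b → ℂ}
    (h : LinearIndependent ℝ (Λ z₁)) (z : Fin b → ℂ) (w : Fin k → ℂ) :
    latMap h z w = ∑ l, (latBasis h).repr w l • Λ z l := by
  unfold latMap
  rw [Module.Basis.constr_apply_fintype]
  rfl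

theorem latMap_comb {Λ : (Fin b → ℂ) → Fin (2 * k) → Fin k → ℂ} {z₁ : Fin b → ℂ}
    (h : LinearIndependent ℝ (Λ z₁)) (z : Fin b → ℂ) (θ : Fin (2 * k) → ℝ) :
    latMap h z (comb Λ z₁ θ) = comb Λ z θ := by
  rw [comb_eq_smul, comb_eq_smul, map_sum]
  refine Finset.sum_congr rfl fun l _ => ?_
  rw [map_smul]
  congr 1
  unfold latMap
  rw [← latBasis_apply h l, Module.Basis.constr_basis]

/-- complex linear part of a real linear map -/
noncomputable def clin (L : (Fin k → ℂ) →ₗ[ℝ] (Fin k → ℂ)) : (Fin k → ℂ) →ₗ[ℂ] (Fin k → ℂ) where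
  toFun u := (1 / 2 : ℂ) • (L u - Complex.I • L (Complex.I • u))
  map_add' u v := by
    rw [smul_add, map_add, map_add]
    ext j
    simp only [Pi.smul_apply, Pi.sub_apply, Pi.add_apply, smul_eq_mul]
    ring
  map_smul' c u := by
    have hc : c • u = (c.re : ℝ) • u + (c.im : ℝ) • (Complex.I • u) := by
      ext j
      simp only [Pi.smul_apply, Pi.add_apply, smul_eq_mul, Complex.real_smul]
      conv_lhs => rw [← Complex.re_add_im c]
      ring
    have hIc : Complex.I • (c • u) = (c.re : ℝ) • (Complex.I • u) - (c.im : ℝ) • u := by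
      ext j
      simp only [Pi.smul_apply, Pi.sub_apply, smul_eq_mul, Complex.real_smul]
      conv_lhs => rw [← Complex.re_add_im c]
      linear_combination (c.im : ℂ) * u j * Complex.I_sq
    rw [hIc, hc]
    simp only [map_add, map_sub, map_smul, RingHom.id_apply]
    ext j
    simp only [Pi.smul_apply, Pi.sub_apply, Pi.add_apply, smul_eq_mul, Complex.real_smul]
    conv_rhs => rw [← Complex.re_add_im c]
    linear_combination ((1 / 2 : ℂ) * (c.im : ℂ) * (L (Complex.I • u) j)) * Complex.I_sq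

theorem differentiableOn_prod' {E ι : Type*} [NormedAddCommGroup E] [NormedSpace ℂ E]
    {f : ι → E → ℂ} {D : Set E} (s : Finset ι) (h : ∀ i, DifferentiableOn ℂ (f i) D) :
    DifferentiableOn ℂ (fun z => ∏ i ∈ s, f i z) D := by
  classical
  induction s using Finset.induction_on with
  | empty => simp
  | insert a s ha ih =>
    simp only [Finset.prod_insert ha]
    exact (h a).mul ih

theorem differentiableOn_det_clin {D : Set (Fin b → ℂ)}
    {Λ : (Fin b → ℂ) → Fin (2 * k) → Fin k → ℂ} (hΛ : DifferentiableOn ℂ Λ D) {z₁ : Fin b → ℂ}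
    (h : LinearIndependent ℝ (Λ z₁)) :
    DifferentiableOn ℂ (fun z => LinearMap.det (clin (latMap h z))) D := by
  have hent : ∀ (w : Fin k → ℂ) (i : Fin k), DifferentiableOn ℂ (fun z => latMap h z w i) D := by
    intro w i
    have : (fun z => latMap h z w i) =
        fun z => ∑ l, (((latBasis h).repr w l : ℝ) : ℂ) * Λ z l i := by
      funext z
      rw [latMap_apply]
      simp [Finset.sum_apply]
    rw [this]
    apply DifferentiableOn.fun_sum
    intro l _
    apply DifferentiableOn.const_mul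
    exact fun z hz => (differentiableWithinAt_pi.1 (differentiableWithinAt_pi.1 (hΛ z hz) l) i)
  have hdet : (fun z => LinearMap.det (clin (latMap h z))) = fun z =>
      (Matrix.of fun i j => (1 / 2 : ℂ) * (latMap h z (Pi.single j 1) i -
        Complex.I * latMap h z (Complex.I • Pi.single j 1) i)).det := by
    funext z
    rw [← LinearMap.det_toMatrix']
    congr 1
  rw [hdet]
  simp only [Matrix.det_apply]
  apply DifferentiableOn.fun_sum
  intro σ _
  apply DifferentiableOn.const_smul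
  apply differentiableOn_prod'
  intro i
  simp only [Matrix.of_apply]
  exact ((hent _ _).sub ((hent _ _).const_mul _)).const_mul _

/-- The image of the unit cube under `θ ↦ comb Λ z θ` is the image of that for `z₁`. -/
theorem image_cube {Λ : (Fin b → ℂ) → Fin (2 * k) → Fin k → ℂ} {z₁ : Fin b → ℂ}
    (h : LinearIndependent ℝ (Λ z₁)) (z : Fin b → ℂ) (C : Set (Fin (2 * k) → ℝ)) :
    (fun θ => comb Λ z θ) '' C = latMap h z '' ((fun θ => comb Λ z₁ θ) '' C) := by
  rw [Set.image_image]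
  apply Set.image_congr
  intro θ _
  rw [latMap_comb]

theorem volume_cube_le {Λ : (Fin b → ℂ) → Fin (2 * k) → Fin k → ℂ} {z₁ : Fin b → ℂ}
    (h : LinearIndependent ℝ (Λ z₁)) (z : Fin b → ℂ) (C : Set (Fin (2 * k) → ℝ))
    (hle : |LinearMap.det (latMap h z)| ≤ ‖LinearMap.det (clin (latMap h z))‖ ^ 2) :
    volume ((fun θ => comb Λ z θ) '' C) ≤
      ENNReal.ofReal (‖LinearMap.det (clin (latMap h z))‖ ^ 2) *
        volume ((fun θ => comb Λ z₁ θ) '' C) := by
  rw [image_cube h z, MeasureTheory.Measure.addHaar_image_linearMap]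
  gcongr

/-- The volume of the base parallelotope is finite. -/
theorem volume_cube_lt_top {Λ : (Fin b → ℂ) → Fin (2 * k) → Fin k → ℂ} (z₁ : Fin b → ℂ) :
    volume ((fun θ : Fin (2 * k) → ℝ => comb Λ z₁ θ) ''
      (Set.pi Set.univ fun _ => Set.Ico (0 : ℝ) 1)) < ⊤ := by
  have hc : Continuous (fun θ : Fin (2 * k) → ℝ => comb Λ z₁ θ) := by
    have : (fun θ : Fin (2 * k) → ℝ => comb Λ z₁ θ) = fun θ => ∑ l, θ l • Λ z₁ l := by
      funext θ
      exact comb_eq_smul Λ z₁ θ
    rw [this]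
    fun_prop
  have hcomp : IsCompact (Set.pi Set.univ fun _ : Fin (2 * k) => Set.Icc (0 : ℝ) 1) :=
    isCompact_univ_pi fun _ => isCompact_Icc
  refine lt_of_le_of_lt (measure_mono ?_) (hcomp.image hc).measure_lt_top
  apply Set.image_mono
  exact Set.pi_mono fun _ _ => Set.Ico_subset_Icc_self

/-- Symplectic comparison: consequence of the Kähler form downstairs. -/
theorem det_bound {X : Type*} [TopologicalSpace X]
    [ChartedSpace (Fin (b + k) → ℂ) X]
    {D : Set (Fin b → ℂ)} (hD : IsOpen D) (hDc : IsPreconnected D)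
    {Λ : (Fin b → ℂ) → Fin (2 * k) → Fin k → ℂ}
    (hΛ : DifferentiableOn ℂ Λ D) (hind : ∀ z ∈ D, LinearIndependent ℝ (Λ z))
    {g : X → Matrix (Fin (b + k)) (Fin (b + k)) ℂ} (hg : IsKahler (b + k) X g)
    {ψ : (Fin (b + k) → ℂ) → X}
    (hψ : MDifferentiableOn 𝓘(ℂ, Fin (b + k) → ℂ) 𝓘(ℂ, Fin (b + k) → ℂ) ψ (tube D hD k))
    (hj : ∀ v ∈ tube D hD k, jac (b + k) ψ v ≠ 0)
    (hper : ∀ (m : Fin (2 * k) → ℤ), ∀ v ∈ tube D hD k,
      ψ (shift Λ (fun l => (m l : ℝ)) v) = ψ v)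
    {z₁ : Fin b → ℂ} (hz₁ : z₁ ∈ D) {z : Fin b → ℂ} (hz : z ∈ D) :
    LinearMap.det (clin (latMap (hind z₁ hz₁) z)) ≠ 0 ∧
      |LinearMap.det (latMap (hind z₁ hz₁) z)| ≤
        ‖LinearMap.det (clin (latMap (hind z₁ hz₁) z))‖ ^ 2 := by
  obtain ⟨Ω, hΩ, hΩk, halt, hcl⟩ := exists_kahOp hg (tube D hD k).isOpen hψ
  have hinv : ∀ v ∈ tube D hD k, ∀ (m : Fin (2 * k) → ℤ), ∀ x y : Fin (b + k) → ℂ,
      Ω (shift Λ (fun l => (m l : ℝ)) v) (fderiv ℂ (shift Λ (fun l => (m l : ℝ))) v x)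
        (fderiv ℂ (shift Λ (fun l => (m l : ℝ))) v y) = Ω v x y := by
    intro v hv m x y
    obtain ⟨h1, h2, -⟩ := jac_shift hD hΛ (fun l => (m l : ℝ)) hv
    rw [hΩk _ h2, hΩk _ hv, ← kahForm_comp g (hψ.mdifferentiableAt
      ((tube D hD k).isOpen.mem_nhds h2)) h1]
    have hev : ψ ∘ shift Λ (fun l => (m l : ℝ)) =ᶠ[𝓝 v] ψ := by
      filter_upwards [(tube D hD k).isOpen.mem_nhds hv] with w hw
      exact hper m w hw
    unfold kahForm
    rw [hev.mfderiv_eq, hev.eq_of_nhds]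
  obtain ⟨A₁, hA₁, hA₁k⟩ := exists_average (Λ := Λ) hg hD hψ hj hz₁
  obtain ⟨A, hA, hAk⟩ := exists_average (Λ := Λ) hg hD hψ hj hz
  refine det_le_of_symplectic hA₁ hA (latMap (hind z₁ hz₁) z) ?_ _ fun u => rfl
  intro u v
  set s : Fin (2 * k) → ℝ := fun l => (latBasis (hind z₁ hz₁)).repr u l with hs
  set t : Fin (2 * k) → ℝ := fun l => (latBasis (hind z₁ hz₁)).repr v l with ht
  have hu : comb Λ z₁ s = u := comb_repr (hind z₁ hz₁) u
  have hv : comb Λ z₁ t = v := comb_repr (hind z₁ hz₁) v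
  have hu' : latMap (hind z₁ hz₁) z u = comb Λ z s := by rw [← hu, latMap_comb]
  have hv' : latMap (hind z₁ hz₁) z v = comb Λ z t := by rw [← hv, latMap_comb]
  rw [hu', hv', ← hu, ← hv, hAk, hA₁k]
  have key := kappa_const hD hDc hΛ hΩ halt hcl hinv hz hz₁ s t
  have e : ∀ (z' : Fin b → ℂ), z' ∈ D → ∀ (x y : Fin (b + k) → ℂ),
      ∫ θ in Set.pi Set.univ (fun _ : Fin (2 * k) => Set.Icc (0 : ℝ) 1),
        kahForm (b + k) g ψ (Fin.append z' (comb Λ z' θ)) x y =
      ∫ θ in Set.pi Set.univ (fun _ : Fin (2 * k) => Set.Icc (0 : ℝ) 1),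
        Ω (Fin.append z' (comb Λ z' θ)) x y := by
    intro z' hz' x y
    congr 1
    funext θ
    refine (hΩk _ ?_ _ _).symm
    change base (Fin.append z' (comb Λ z' θ)) ∈ D
    rw [base_append]
    exact hz'
  rw [e z hz, e z₁ hz₁]
  exact key

end Pool.Agent.Helper16.Abund
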