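import Pool.Agent.Helper16.Abund.Basic
import Pool.Agent.Helper16.Abund.Several

open scoped Manifold ContDiff ENNReal Topology
open MeasureTheory Metric

namespace Pool.Agent.Helper16.Abund

variable {n : ℕ} {X Y Z : Type*} [TopologicalSpace X] [ChartedSpace (Fin n → ℂ) X]
    [TopologicalSpace Y] [ChartedSpace (Fin n → ℂ) Y]
    [TopologicalSpace Z] [ChartedSpace (Fin n → ℂ) Z]

/-- the trace of the `k`-th power of the `m`-canonical form `η` under `p` -/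
noncomputable def trace (n : ℕ) {X Y : Type*} [TopologicalSpace X] [ChartedSpace (Fin n → ℂ) X]
    [TopologicalSpace Y] [ChartedSpace (Fin n → ℂ) Y] (p : Y → X) (m k : ℕ) (η : Y → ℂ) (x : X) :
    ℂ :=
  ∑' y : p ⁻¹' {x}, (η y / jac n p y.1 ^ m) ^ k

theorem jac_ne_zero {p : Y → X}
    (hloc : IsLocalDiffeomorph 𝓘(ℂ, Fin n → ℂ) 𝓘(ℂ, Fin n → ℂ) ω p) (y : Y) :
    jac n p y ≠ 0 := by
  have h1 := (hloc y).localInverse_mdifferentiableAt (by simp)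
  have h2 := (hloc y).mdifferentiableAt (by simp)
  have := jac_mul_eq_one h1 h2 (hloc y).localInverse_eventuallyEq_left
  intro h0
  rw [h0, mul_zero] at this
  exact zero_ne_one this

/-- Properties of the local sections over `U`. -/
structure Sheets {n : ℕ} {X Y : Type*} [TopologicalSpace X] [ChartedSpace (Fin n → ℂ) X]
    [TopologicalSpace Y] [ChartedSpace (Fin n → ℂ) Y] (p : Y → X) (x₀ : X) (U : Set X)
    (σ : (p ⁻¹' {x₀}) → X → Y) : Prop where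
  isOpen : IsOpen U
  mem : x₀ ∈ U
  mdiff : ∀ i, MDifferentiableOn 𝓘(ℂ, Fin n → ℂ) 𝓘(ℂ, Fin n → ℂ) (σ i) U
  sect : ∀ i, ∀ x ∈ U, p (σ i x) = x
  uniq : ∀ y, p y ∈ U → ∃! i, σ i (p y) = y
  base : ∀ i, σ i x₀ = i

theorem exists_sheets {p : Y → X} (hcov : IsCoveringMap p)
    (hloc : IsLocalDiffeomorph 𝓘(ℂ, Fin n → ℂ) 𝓘(ℂ, Fin n → ℂ) ω p) (x₀ : X) :
    ∃ U σ, Sheets (n := n) p x₀ U σ := by
  obtain ⟨U, h1, h2, σ, h3, h4, h5, h6⟩ := exists_sections hcov hloc x₀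
  exact ⟨U, σ, h1, h2, h3, h4, h5, h6⟩

namespace Sheets

variable {p : Y → X} {x₀ : X} {U : Set X} {σ : (p ⁻¹' {x₀}) → X → Y}

noncomputable def equiv (S : Sheets (n := n) p x₀ U σ) {x : X} (hx : x ∈ U) :
    (p ⁻¹' {x₀}) ≃ (p ⁻¹' {x}) :=
  Equiv.ofBijective (fun i => ⟨σ i x, S.sect i x hx⟩) (by
    constructor
    · intro i j hij
      have hij' : σ i x = σ j x := congrArg Subtype.val hij
      obtain ⟨k, -, hk⟩ := S.uniq (σ i x) (by rw [S.sect i x hx]; exact hx)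
      have h1 := hk i (by simp only [S.sect i x hx])
      have h2 := hk j (by simp only [S.sect i x hx]; exact hij'.symm)
      rw [h1, h2]
    · rintro ⟨y, hy⟩
      have hy' : p y = x := hy
      obtain ⟨i, hi, -⟩ := S.uniq y (by rw [hy']; exact hx)
      refine ⟨i, Subtype.ext ?_⟩
      change σ i x = y
      rw [← hy']
      exact hi)

theorem equiv_apply (S : Sheets (n := n) p x₀ U σ) {x : X} (hx : x ∈ U) (i : p ⁻¹' {x₀}) :
    ((S.equiv hx i : p ⁻¹' {x}) : Y) = σ i x := rfl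

theorem tsum_fibre (S : Sheets (n := n) p x₀ U σ) {x : X} (hx : x ∈ U) {M : Type*}
    [AddCommMonoid M] [TopologicalSpace M] (F : Y → M) :
    ∑' y : p ⁻¹' {x}, F y = ∑' i, F (σ i x) := by
  rw [← (S.equiv hx).tsum_eq]
  rfl

theorem summable_fibre (S : Sheets (n := n) p x₀ U σ) {x : X} (hx : x ∈ U) {M : Type*}
    [AddCommMonoid M] [TopologicalSpace M] (F : Y → M) :
    (Summable fun y : p ⁻¹' {x} => F y) ↔ Summable fun i => F (σ i x) := by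
  rw [← (S.equiv hx).summable_iff]
  rfl

theorem jac_comp_sheet (S : Sheets (n := n) p x₀ U σ)
    (hloc : IsLocalDiffeomorph 𝓘(ℂ, Fin n → ℂ) 𝓘(ℂ, Fin n → ℂ) ω p) (i : p ⁻¹' {x₀})
    {ψ : (Fin n → ℂ) → X} {z : Fin n → ℂ}
    (hψ : MDifferentiableAt 𝓘(ℂ, Fin n → ℂ) 𝓘(ℂ, Fin n → ℂ) ψ z) (hz : ψ z ∈ U) :
    jac n (fun w => σ i (ψ w)) z = jac n ψ z / jac n p (σ i (ψ z)) := by
  have hσ : MDifferentiableAt 𝓘(ℂ, Fin n → ℂ) 𝓘(ℂ, Fin n → ℂ) (σ i) (ψ z) :=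
    (S.mdiff i).mdifferentiableAt (S.isOpen.mem_nhds hz)
  have hc : MDifferentiableAt 𝓘(ℂ, Fin n → ℂ) 𝓘(ℂ, Fin n → ℂ) (σ i ∘ ψ) z := hσ.comp z hψ
  have hp : MDifferentiableAt 𝓘(ℂ, Fin n → ℂ) 𝓘(ℂ, Fin n → ℂ) p ((σ i ∘ ψ) z) :=
    (hloc _).mdifferentiableAt (by simp)
  have hev : ψ =ᶠ[𝓝 z] p ∘ (σ i ∘ ψ) := by
    filter_upwards [hψ.continuousAt.preimage_mem_nhds (S.isOpen.mem_nhds hz)] with w hw
    exact (S.sect i _ hw).symm
  rw [jac_congr hev, jac_comp hp hc]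
  change jac n (σ i ∘ ψ) z = jac n p (σ i (ψ z)) * jac n (σ i ∘ ψ) z / jac n p (σ i (ψ z))
  rw [mul_div_cancel_left₀ _ (jac_ne_zero hloc _)]

end Sheets

end Pool.Agent.Helper16.Abund
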